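import Pool.Agent.Lib.MP_8b9ec4_lc.RM.Alg

/-!
# The algebra of the positive measurable sets is the measure algebra
-/

namespace SymExt

namespace RM

open MeasureTheory

namespace A1

variable {Ω : Type} [MeasurableSpace Ω] {μ : Measure Ω}

theorem eh_pos {A : Set Ω} (h : MeasurableSet A) (h' : μ A ≠ 0) :
    eh μ A = RO.e ⟨A, h, h'⟩ := by
  rw [eh, dif_pos ⟨h, h'⟩]

theorem eh_null {A : Set Ω} (h' : μ A = 0) : eh μ A = ⊥ := by
  rw [eh, dif_neg]
  exact fun h => h.2 h'

theorem le_iff {A B : Set Ω} (hA : MeasurableSet A) (hB : MeasurableSet B) :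
    eh μ A ≤ eh μ B ↔ μ (A \ B) = 0 := by
  have hd : DenseMap (RO.e : Pos μ → RO (Pos μ)) := RO.dense_e
  by_cases h1 : μ A = 0
  · rw [eh_null h1]
    simp only [bot_le, true_iff]
    exact measure_mono_null Set.diff_subset h1
  by_cases h2 : μ B = 0
  · rw [eh_null h2, eh_pos hA h1]
    constructor
    · intro h
      exact absurd (le_bot_iff.1 h) (hd.ne_bot _)
    · intro h
      exfalso
      apply h1
      have : A ⊆ (A \ B) ∪ B := fun x hx => by
        by_cases hb : x ∈ B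
        · exact Or.inr hb
        · exact Or.inl ⟨hx, hb⟩
      exact measure_mono_null this (measure_union_null h h2)
  rw [eh_pos hA h1, eh_pos hB h2]
  constructor
  · intro h
    by_contra h3
    have hm : MeasurableSet (A \ B) := hA.diff hB
    have h4 : (RO.e (⟨A \ B, hm, h3⟩ : Pos μ) : RO (Pos μ)) ≤ RO.e ⟨A, hA, h1⟩ :=
      hd.mono _ _ (Set.diff_subset : A \ B ⊆ A)
    have h5 : (RO.e (⟨A \ B, hm, h3⟩ : Pos μ) : RO (Pos μ)) ⊓ RO.e ⟨B, hB, h2⟩ ≠ ⊥ := by
      rw [inf_eq_left.2 (h4.trans h)]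
      exact hd.ne_bot _
    obtain ⟨r, hr1, hr2⟩ := hd.compat _ _ h5
    apply r.pos
    have : r.A = ∅ := by
      ext x
      constructor
      · intro hx
        exact absurd (hr2 hx) (hr1 hx).2
      · intro hx
        exact absurd hx (Set.notMem_empty x)
    rw [this, measure_empty]
  · intro h
    refine hd.le_of_dense fun q hq => ?_
    have h3 : μ (q.A ∩ B) ≠ 0 := by
      intro h4
      apply q.pos
      have : q.A ⊆ (A \ B) ∪ (q.A ∩ B) := fun x hx => by
        by_cases hb : x ∈ B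
        · exact Or.inr ⟨hx, hb⟩
        · exact Or.inl ⟨hq hx, hb⟩
      exact measure_mono_null this (measure_union_null h h4)
    exact ⟨⟨q.A ∩ B, q.meas.inter hB, h3⟩, Set.inter_subset_left,
      hd.mono _ _ (Set.inter_subset_right : q.A ∩ B ⊆ B)⟩

theorem e_le_iff (p : Pos μ) {B : Set Ω} (hB : MeasurableSet B) :
    (RO.e p : RO (Pos μ)) ≤ eh μ B ↔ μ (p.A \ B) = 0 := by
  rw [← le_iff p.meas hB, eh_pos p.meas p.pos]

theorem le_of_forall {b c : RO (Pos μ)} (h : ∀ p : Pos μ, RO.e p ≤ b → RO.e p ≤ c) : b ≤ c := by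
  have hd : DenseMap (RO.e : Pos μ → RO (Pos μ)) := RO.dense_e
  by_contra hcon
  have h1 : b ⊓ cᶜ ≠ ⊥ := by
    intro h2
    apply hcon
    rwa [← disjoint_iff, disjoint_compl_right_iff] at h2
  obtain ⟨p, hp⟩ := hd.dense _ h1
  exact hd.not_both (h p (hp.trans inf_le_left)) (hp.trans inf_le_right)

theorem compl {A : Set Ω} (hA : MeasurableSet A) : eh μ Aᶜ = (eh μ A)ᶜ := by
  have hd : DenseMap (RO.e : Pos μ → RO (Pos μ)) := RO.dense_e
  apply le_antisymm
  · refine le_of_forall fun p hp => ?_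
    rw [le_compl_iff_disjoint_right, disjoint_iff]
    by_contra h
    obtain ⟨q, hq⟩ := hd.dense _ h
    have h1 := (e_le_iff q hA).1 (hq.trans inf_le_right)
    have h2 := (e_le_iff q hA.compl).1 ((hq.trans inf_le_left).trans hp)
    apply q.pos
    have : q.A ⊆ (q.A \ A) ∪ (q.A \ Aᶜ) := fun x hx => by
      by_cases hb : x ∈ A
      · exact Or.inr ⟨hx, fun h => h hb⟩
      · exact Or.inl ⟨hx, hb⟩
    exact measure_mono_null this (measure_union_null h1 h2)
  · refine le_of_forall fun p hp => ?_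
    rw [e_le_iff p hA.compl]
    by_contra h
    have hm : MeasurableSet (p.A \ Aᶜ) := p.meas.diff hA.compl
    have h1 : (RO.e (⟨p.A \ Aᶜ, hm, h⟩ : Pos μ) : RO (Pos μ)) ≤ eh μ A := by
      rw [e_le_iff _ hA]
      have : (p.A \ Aᶜ) \ A = ∅ := by
        ext x
        simp
      change μ ((p.A \ Aᶜ) \ A) = 0
      rw [this, measure_empty]
    exact hd.not_both h1 ((hd.mono _ _ (Set.diff_subset : p.A \ Aᶜ ⊆ p.A)).trans hp)

theorem iUnion (A : ℕ → Set Ω) (hA : ∀ n, MeasurableSet (A n)) :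
    eh μ (⋃ n, A n) = ⨆ n, eh μ (A n) := by
  have hd : DenseMap (RO.e : Pos μ → RO (Pos μ)) := RO.dense_e
  apply le_antisymm
  · refine le_of_forall fun p hp => ?_
    rw [e_le_iff p (MeasurableSet.iUnion hA)] at hp
    refine hd.le_of_dense fun q hq => ?_
    have h1 : ∃ n, μ (q.A ∩ A n) ≠ 0 := by
      by_contra hcon
      push Not at hcon
      apply q.pos
      have : q.A ⊆ (p.A \ ⋃ n, A n) ∪ ⋃ n, (q.A ∩ A n) := fun x hx => by
        by_cases hb : x ∈ ⋃ n, A n
        · obtain ⟨n, hn⟩ := Set.mem_iUnion.1 hb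
          exact Or.inr (Set.mem_iUnion.2 ⟨n, hx, hn⟩)
        · exact Or.inl ⟨hq hx, hb⟩
      exact measure_mono_null this (measure_union_null hp (measure_iUnion_null hcon))
    obtain ⟨n, hn⟩ := h1
    refine ⟨⟨q.A ∩ A n, q.meas.inter (hA n), hn⟩, Set.inter_subset_left, le_trans ?_
      (le_iSup (fun n => eh μ (A n)) n)⟩
    rw [e_le_iff _ (hA n)]
    have : (q.A ∩ A n) \ A n = ∅ := by
      ext x
      simp
    change μ ((q.A ∩ A n) \ A n) = 0
    rw [this, measure_empty]
  · refine iSup_le fun n => ?_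
    rw [le_iff (hA n) (MeasurableSet.iUnion hA)]
    have : A n \ ⋃ n, A n = ∅ := Set.diff_eq_empty.2 (Set.subset_iUnion A n)
    rw [this, measure_empty]

theorem surj [IsFiniteMeasure μ] (b : RO (Pos μ)) : ∃ A, MeasurableSet A ∧ eh μ A = b := by
  have hd : DenseMap (RO.e : Pos μ → RO (Pos μ)) := RO.dense_e
  let T : Set ENNReal := {x | ∃ A, MeasurableSet A ∧ eh μ A ≤ b ∧ μ A = x}
  have hT : T.Nonempty := ⟨0, ∅, MeasurableSet.empty, by
    rw [eh_null measure_empty]; exact bot_le, measure_empty⟩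
  obtain ⟨u, _, hu, hmem⟩ := exists_seq_tendsto_sSup hT (OrderTop.bddAbove T)
  choose A hA1 hA2 hA3 using hmem
  have hm : MeasurableSet (⋃ n, A n) := MeasurableSet.iUnion hA1
  have hle : eh μ (⋃ n, A n) ≤ b := by
    rw [iUnion A hA1]
    exact iSup_le hA2
  have hsup : sSup T ≤ μ (⋃ n, A n) := by
    refine le_of_tendsto' hu fun n => ?_
    rw [← hA3 n]
    exact measure_mono (Set.subset_iUnion A n)
  refine ⟨_, hm, le_antisymm hle (le_of_forall fun p hp => ?_)⟩
  rw [e_le_iff p hm]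
  by_contra h
  set A0 := ⋃ n, A n with hA0
  have hq : MeasurableSet (p.A \ A0) := p.meas.diff hm
  have h1 : eh μ (A0 ∪ (p.A \ A0)) ≤ b := by
    refine le_of_forall fun r hr => ?_
    rw [e_le_iff r (hm.union hq)] at hr
    refine hd.le_of_dense fun s hs => ?_
    by_cases h2 : μ (s.A ∩ A0) = 0
    · have h3 : μ (s.A ∩ p.A) ≠ 0 := by
        intro h4
        apply s.pos
        have : s.A ⊆ (r.A \ (A0 ∪ (p.A \ A0))) ∪ ((s.A ∩ A0) ∪ (s.A ∩ p.A)) := fun x hx => by
          by_cases hb : x ∈ A0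
          · exact Or.inr (Or.inl ⟨hx, hb⟩)
          · by_cases hb' : x ∈ p.A
            · exact Or.inr (Or.inr ⟨hx, hb'⟩)
            · refine Or.inl ⟨hs hx, ?_⟩
              rintro (h5 | h5)
              · exact hb h5
              · exact hb' h5.1
        exact measure_mono_null this (measure_union_null hr (measure_union_null h2 h4))
      exact ⟨⟨s.A ∩ p.A, s.meas.inter p.meas, h3⟩, Set.inter_subset_left,
        (hd.mono _ _ (Set.inter_subset_right : s.A ∩ p.A ⊆ p.A)).trans hp⟩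
    · refine ⟨⟨s.A ∩ A0, s.meas.inter hm, h2⟩, Set.inter_subset_left, le_trans ?_ hle⟩
      rw [e_le_iff _ hm]
      have : (s.A ∩ A0) \ A0 = ∅ := by
        ext x
        simp
      change μ ((s.A ∩ A0) \ A0) = 0
      rw [this, measure_empty]
  have h2 : μ (A0 ∪ (p.A \ A0)) ≤ sSup T := le_sSup ⟨_, hm.union hq, h1, rfl⟩
  rw [measure_union Set.disjoint_sdiff_right hq] at h2
  have h3 := h2.trans hsup
  have h4 : μ A0 ≠ ⊤ := measure_ne_top μ _
  have h5 : μ (p.A \ A0) ≤ 0 := by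
    have h6 : μ A0 + μ (p.A \ A0) ≤ μ A0 + 0 := by rw [add_zero]; exact h3
    exact (ENNReal.add_le_add_iff_left h4).1 h6
  exact h (le_antisymm h5 bot_le)

end A1

theorem stMA : StMA := fun Ω _ μ _ =>
  { le_iff := fun _ _ hA hB => A1.le_iff hA hB
    compl := fun _ hA => A1.compl hA
    iUnion := fun A hA => A1.iUnion A hA
    surj := fun b => A1.surj b }

end RM

end SymExt
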