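import Pool.Agent.Lib.MP_8b9ec4_lc.RM.Alg

/-!
# Mixing: one random sequence instead of a supremum over random sequences
-/

namespace SymExt

namespace RM

open MeasureTheory

namespace A2

variable {Ω : Type} [MeasurableSpace Ω] {μ : Measure Ω} {𝔹 : Type} [CompleteBooleanAlgebra 𝔹]
  {e : Set Ω → 𝔹}

theorem e_mono (h : MAlg μ e) {A A' : Set Ω} (hA : MeasurableSet A) (hA' : MeasurableSet A')
    (hs : A ⊆ A') : e A ≤ e A' := by
  rw [h.le_iff A A' hA hA', Set.diff_eq_empty.2 hs, measure_empty]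

theorem e_bot (h : MAlg μ e) {A : Set Ω} (hA : MeasurableSet A) (h0 : μ A = 0) : e A = ⊥ := by
  obtain ⟨A0, h1, h2⟩ := h.surj ⊥
  rw [← le_bot_iff, ← h2, h.le_iff A A0 hA h1]
  exact measure_mono_null Set.diff_subset h0

/-- countable unions -/
theorem union_mem (h : MAlg μ e) {B : (Ω → ℕ → List Bool) → 𝔹}
    (hB : ∀ c c', CM c → CM c' → ∀ A, MeasurableSet A → (∀ ω ∈ A, c ω = c' ω) →
      e A ⊓ B c ≤ B c') (A : ℕ → Set Ω) (hA : ∀ n, MeasurableSet (A n))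
    (cs : ℕ → Ω → ℕ → List Bool) (hc : ∀ n, CM (cs n)) (hAc : ∀ n, e (A n) ≤ B (cs n)) :
    ∃ c, CM c ∧ e (⋃ n, A n) ≤ B c := by
  classical
  let D : ℕ → Set Ω := fun n => {ω | ω ∈ A n ∧ ∀ m < n, ω ∉ A m}
  have hD : ∀ n, MeasurableSet (D n) := by
    intro n
    have h1 : D n = A n ∩ ⋂ m ∈ Finset.range n, (A m)ᶜ := by
      ext ω
      simp only [D, Set.mem_setOf_eq, Set.mem_inter_iff, Set.mem_iInter, Set.mem_compl_iff,
        Finset.mem_range]
    rw [h1]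
    exact (hA n).inter (Finset.measurableSet_biInter _ fun m _ => (hA m).compl)
  have hU : ⋃ n, A n = ⋃ n, D n := by
    ext ω
    simp only [Set.mem_iUnion]
    constructor
    · intro hω
      exact ⟨Nat.find hω, Nat.find_spec hω, fun m hm => Nat.find_min hω hm⟩
    · rintro ⟨n, hn⟩
      exact ⟨n, hn.1⟩
  let c : Ω → ℕ → List Bool := fun ω =>
    if hω : ∃ n, ω ∈ A n then cs (Nat.find hω) ω else cs 0 ω
  have hcD : ∀ n, ∀ ω ∈ D n, c ω = cs n ω := by
    intro n ω hω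
    have h1 : ∃ n, ω ∈ A n := ⟨n, hω.1⟩
    have h2 : Nat.find h1 = n := (Nat.find_eq_iff h1).2 ⟨hω.1, fun m hm => hω.2 m hm⟩
    simp only [c]
    rw [dif_pos h1, h2]
  have hcU : ∀ ω ∉ ⋃ n, D n, c ω = cs 0 ω := by
    intro ω hω
    rw [← hU, Set.mem_iUnion] at hω
    simp only [c]
    rw [dif_neg hω]
  have hcM : CM c := by
    intro j σ
    have h1 : {ω | c ω j = σ} = (⋃ n, D n ∩ {ω | cs n ω j = σ}) ∪
        ((⋃ n, D n)ᶜ ∩ {ω | cs 0 ω j = σ}) := by
      ext ω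
      simp only [Set.mem_setOf_eq, Set.mem_union, Set.mem_iUnion, Set.mem_inter_iff,
        Set.mem_compl_iff]
      constructor
      · intro h2
        by_cases h3 : ∃ n, ω ∈ D n
        · obtain ⟨n, hn⟩ := h3
          exact Or.inl ⟨n, hn, by rw [← hcD n ω hn]; exact h2⟩
        · refine Or.inr ⟨h3, ?_⟩
          rw [← hcU ω (by rwa [Set.mem_iUnion])]
          exact h2
      · rintro (⟨n, hn, h2⟩ | ⟨h3, h2⟩)
        · rw [hcD n ω hn]
          exact h2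
        · rw [hcU ω (by rwa [Set.mem_iUnion])]
          exact h2
    rw [h1]
    exact (MeasurableSet.iUnion fun n => (hD n).inter (hc n j σ)).union
      ((MeasurableSet.iUnion hD).compl.inter (hc 0 j σ))
  refine ⟨c, hcM, ?_⟩
  rw [hU, h.iUnion D hD]
  refine iSup_le fun n => ?_
  have h1 : e (D n) ≤ B (cs n) := (e_mono h (hD n) (hA n) fun ω hω => hω.1).trans (hAc n)
  exact (le_inf le_rfl h1).trans (hB (cs n) c (hc n) hcM (D n) (hD n)
    fun ω hω => (hcD n ω hω).symm)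

end A2

theorem stMix : StMix := by
  intro Ω _ μ _ 𝔹 _ e h B hB b hb
  classical
  let T : Set ENNReal := {x | ∃ A, MeasurableSet A ∧ (∃ c, CM c ∧ e A ≤ B c) ∧ μ A = x}
  have hT : T.Nonempty := ⟨0, ∅, MeasurableSet.empty, ⟨fun _ _ => [], fun j σ => by
    by_cases hσ : ([] : List Bool) = σ
    · simp [hσ]
    · simp [hσ], by
    rw [A2.e_bot h MeasurableSet.empty measure_empty]; exact bot_le⟩, measure_empty⟩
  obtain ⟨u, _, hu, hmem⟩ := exists_seq_tendsto_sSup hT (OrderTop.bddAbove T)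
  choose A hA1 hA2 hA3 using hmem
  choose cs hc hAc using hA2
  obtain ⟨c, hcM, hle⟩ := A2.union_mem h hB A hA1 cs hc hAc
  have hm : MeasurableSet (⋃ n, A n) := MeasurableSet.iUnion hA1
  have hsup : sSup T ≤ μ (⋃ n, A n) := by
    refine le_of_tendsto' hu fun n => ?_
    rw [← hA3 n]
    exact measure_mono (Set.subset_iUnion A n)
  refine ⟨c, hcM, le_trans ?_ hle⟩
  set A0 := ⋃ n, A n with hA0
  by_contra hcon
  have h1 : b ⊓ (e A0)ᶜ ≠ ⊥ := by
    intro h2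
    apply hcon
    rwa [← disjoint_iff, disjoint_compl_right_iff] at h2
  have h2 : ∃ c' : {c : Ω → ℕ → List Bool // CM c}, (b ⊓ (e A0)ᶜ) ⊓ B c'.1 ≠ ⊥ := by
    by_contra h3
    push Not at h3
    apply h1
    have h4 : b ⊓ (e A0)ᶜ = (b ⊓ (e A0)ᶜ) ⊓ ⨆ c : {c : Ω → ℕ → List Bool // CM c}, B c.1 :=
      (inf_eq_left.2 (inf_le_left.trans hb)).symm
    rw [h4, inf_iSup_eq, iSup_eq_bot]
    exact h3
  obtain ⟨⟨c', hc'⟩, h3⟩ := h2
  obtain ⟨A', hA', hA'e⟩ := h.surj ((b ⊓ (e A0)ᶜ) ⊓ B c')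
  have h4 : μ A' ≠ 0 := fun h5 => h3 (by
    change (b ⊓ (e A0)ᶜ) ⊓ B c' = ⊥
    rw [← hA'e, A2.e_bot h hA' h5])
  have h5 : e A' ≤ e A0ᶜ := by
    rw [h.compl A0 hm, hA'e]
    exact inf_le_left.trans inf_le_right
  have h6 : μ (A' \ A0ᶜ) = 0 := (h.le_iff A' A0ᶜ hA' hm.compl).1 h5
  have h7 : μ (A' \ A0) ≠ 0 := by
    intro h8
    apply h4
    refine measure_mono_null (fun ω hω => ?_) (measure_union_null h6 h8)
    by_cases h9 : ω ∈ A0
    · exact Or.inl ⟨hω, fun h10 => h10 h9⟩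
    · exact Or.inr ⟨hω, h9⟩
  have h8 : e (A' \ A0) ≤ B c' := (A2.e_mono h (hA'.diff hm) hA' Set.diff_subset).trans
    (hA'e.le.trans inf_le_right)
  obtain ⟨c2, hc2, hle2⟩ := A2.union_mem h hB
    (fun n => match n with | 0 => A0 | _ + 1 => A' \ A0)
    (fun n => match n with | 0 => hm | _ + 1 => hA'.diff hm)
    (fun n => match n with | 0 => c | _ + 1 => c')
    (fun n => match n with | 0 => hcM | _ + 1 => hc')
    (fun n => match n with | 0 => hle | _ + 1 => h8)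
  have h9 : (A0 ∪ (A' \ A0)) ⊆ ⋃ n : ℕ, (match n with | 0 => A0 | _ + 1 => A' \ A0 : Set Ω) := by
    rintro ω (hω | hω)
    · exact Set.mem_iUnion.2 ⟨0, hω⟩
    · exact Set.mem_iUnion.2 ⟨1, hω⟩
  have hm2 : MeasurableSet (⋃ n : ℕ, (match n with | 0 => A0 | _ + 1 => A' \ A0 : Set Ω)) :=
    MeasurableSet.iUnion fun n => match n with | 0 => hm | _ + 1 => hA'.diff hm
  have h10 : μ (A0 ∪ (A' \ A0)) ≤ sSup T := (measure_mono h9).trans
    (le_sSup ⟨_, hm2, ⟨c2, hc2, hle2⟩, rfl⟩)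
  rw [measure_union Set.disjoint_sdiff_right (hA'.diff hm)] at h10
  have h11 := h10.trans hsup
  have h12 : μ A0 ≠ ⊤ := measure_ne_top μ _
  have h13 : μ (A' \ A0) ≤ 0 := by
    have h14 : μ A0 + μ (A' \ A0) ≤ μ A0 + 0 := by rw [add_zero]; exact h11
    exact (ENNReal.add_le_add_iff_left h12).1 h14
  exact h7 (le_antisymm h13 bot_le)

end RM

end SymExt
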