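import Pool.Agent.Lib.MP_8b9ec4_lc.RM.Alg

/-!
# Measurable subsets of the product space depend on countably many coordinates
-/

namespace SymExt

namespace RM

open MeasureTheory

namespace A3

theorem depOn_mono {A : Set Om} {J J' : Set I} (h : J ⊆ J') (hA : DepOn A J) : DepOn A J' :=
  fun ω ω' hω => hA ω ω' fun i hi => hω i (h hi)

/-- the sets with a countable support -/
@[reducible] def space : MeasurableSpace Om where
  MeasurableSet' A := ∃ J : Set I, J.Countable ∧ DepOn A J
  measurableSet_empty := ⟨∅, Set.countable_empty, fun _ _ _ => Iff.rfl⟩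
  measurableSet_compl := by
    rintro A ⟨J, hJ, hA⟩
    exact ⟨J, hJ, fun ω ω' hω => not_congr (hA ω ω' hω)⟩
  measurableSet_iUnion := by
    intro A hA
    choose J hJ hJA using hA
    refine ⟨⋃ n, J n, Set.countable_iUnion hJ, fun ω ω' hω => ?_⟩
    rw [Set.mem_iUnion, Set.mem_iUnion]
    exact exists_congr fun n => depOn_mono (Set.subset_iUnion J n) (hJA n) ω ω' hω

theorem pi_le : (MeasurableSpace.pi : MeasurableSpace Om) ≤ space := by
  refine iSup_le fun i => ?_
  rintro A ⟨B, -, rfl⟩
  refine ⟨{i}, Set.countable_singleton i, fun ω ω' hω => ?_⟩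
  have h : ω i = ω' i := hω i rfl
  change ω i ∈ B ↔ ω' i ∈ B
  rw [h]

end A3

theorem stSupp : StSupp := fun A hA => A3.pi_le A hA

end RM

end SymExt
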