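import Pool.Agent.Lib.MP_8b9ec4_lc.RM.Alg

/-!
# Fubini for one coordinate
-/

set_option autoImplicit false

namespace SymExt

namespace RM

namespace A4

open MeasureTheory

open Classical in
/-- Replace the coordinate `β`. -/
noncomputable def ph (β : I) (p : Om × unitInterval) : Om := Function.update p.1 β p.2

theorem measurable_ph (β : I) : Measurable (ph β) := by
  classical
  unfold ph
  exact measurable_update'

theorem preimage_pi (β : I) (s : Finset I) (t : I → Set unitInterval) :
    ph β ⁻¹' (Set.pi (s : Set I) t) =
      (Set.pi ((s.erase β : Finset I) : Set I) t) ×ˢ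
        (if β ∈ s then t β else (Set.univ : Set unitInterval)) := by
  classical
  ext ⟨ω, x⟩
  simp only [Set.mem_preimage, Set.mem_pi, Finset.mem_coe, ph, Set.mem_prod, Finset.mem_erase]
  constructor
  · intro h
    refine ⟨fun i hi => ?_, ?_⟩
    · have h1 := h i hi.2
      rwa [Function.update_of_ne hi.1] at h1
    · split_ifs with hb
      · have h1 := h β hb
        rwa [Function.update_self] at h1
      · exact Set.mem_univ _
  · rintro ⟨h1, h2⟩ i hi
    by_cases hb : i = β
    · subst hb
      rw [if_pos hi] at h2
      rw [Function.update_self]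
      exact h2
    · rw [Function.update_of_ne hb]
      exact h1 i ⟨hb, hi⟩

theorem map_ph (β : I) : (mu.prod (volume : Measure unitInterval)).map (ph β) = mu := by
  classical
  unfold mu
  apply Measure.eq_infinitePi
  intro s t ht
  rw [Measure.map_apply (measurable_ph β)
    (MeasurableSet.pi s.countable_toSet fun i _ => ht i), preimage_pi, Measure.prod_prod,
    Measure.infinitePi_pi _ (fun i _ => ht i)]
  split_ifs with hb
  · rw [Finset.prod_erase_mul _ _ hb]
  · rw [measure_univ, mul_one, Finset.erase_eq_of_notMem hb]

end A4

open MeasureTheory A4 in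
theorem stFub : StFub := by
  classical
  intro β D hD hdep
  have hmeas : MeasurableSet {ω : Om | (ω, ω β) ∈ D} :=
    (measurable_id.prodMk (measurable_pi_apply β)) hD
  have h2 : ph β ⁻¹' {ω : Om | (ω, ω β) ∈ D} = D := by
    ext ⟨ω, t⟩
    have h3 := hdep t (Function.update ω β t) ω (fun i hi => by
      have hne : i ≠ β := hi
      rw [Function.update_of_ne hne])
    simp only [Set.mem_setOf_eq] at h3
    simp only [Set.mem_preimage, Set.mem_setOf_eq, ph, Function.update_self]
    exact h3
  have h1 : mu {ω : Om | (ω, ω β) ∈ D} = (mu.prod (volume : Measure unitInterval)) D := by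
    conv_lhs => rw [← map_ph β]
    rw [Measure.map_apply (measurable_ph β) hmeas, h2]
  rw [h1, Measure.prod_apply hD]
  rfl

end RM

end SymExt
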