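import Pool.Agent.Lib.MP_8b9ec4_lc.RM.Alg

/-!
# The quantile map of a probability measure on the Cantor space
-/

namespace SymExt

namespace RM

open MeasureTheory

namespace A5

/-- The measure of the set of the points to the left of the node. -/
noncomputable def lo (m : List Bool → ℝ) : List Bool → ℝ
  | [] => 0
  | false :: σ => lo m σ
  | true :: σ => lo m σ + m (false :: σ)

open Classical in
/-- The initial segment of length `n` of the point with parameter `t`. -/
noncomputable def nd (m : List Bool → ℝ) (t : ℝ) : ℕ → List Bool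
  | 0 => []
  | n + 1 => if t < lo m (nd m t n) + m (false :: nd m t n) then false :: nd m t n
      else true :: nd m t n

/-- The quantile map. -/
noncomputable def F (m : List Bool → ℝ) (t : unitInterval) : Set ℕ :=
  {n | ¬ (t : ℝ) < lo m (nd m t n) + m (false :: nd m t n)}

theorem init_F (m : List Bool → ℝ) (t : unitInterval) (n : ℕ) : init (F m t) n = nd m t n := by
  induction n with
  | zero => rfl
  | succ n ih =>
    rw [init, nd, ih]
    by_cases h : (t : ℝ) < lo m (nd m t n) + m (false :: nd m t n)
    · rw [if_pos h]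
      have : n ∉ F m t := fun h' => h' h
      simp [this]
    · rw [if_neg h]
      have : n ∈ F m t := h
      simp [this]

theorem isInit_iff (m : List Bool → ℝ) (t : unitInterval) (σ : List Bool) :
    IsInit σ (F m t) ↔ nd m t σ.length = σ := by
  rw [IsInit, init_F]

theorem nd_cons (m : List Bool → ℝ) (t : ℝ) (b : Bool) (σ : List Bool) :
    nd m t (σ.length + 1) = b :: σ ↔
      nd m t σ.length = σ ∧ (b = false ↔ t < lo m σ + m (false :: σ)) := by
  rw [nd]
  by_cases h : t < lo m (nd m t σ.length) + m (false :: nd m t σ.length)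
  · rw [if_pos h]
    constructor
    · intro h1
      rw [List.cons.injEq] at h1
      obtain ⟨h2, h3⟩ := h1
      rw [h3] at h
      exact ⟨h3, fun _ => h, fun _ => h2.symm⟩
    · rintro ⟨h1, h2⟩
      rw [h1] at h
      rw [h2.2 h, h1]
  · rw [if_neg h]
    constructor
    · intro h1
      rw [List.cons.injEq] at h1
      obtain ⟨h2, h3⟩ := h1
      rw [h3] at h
      refine ⟨h3, fun h4 => ?_, fun h4 => absurd h4 h⟩
      rw [← h2] at h4
      exact absurd h4 (by decide)
    · rintro ⟨h1, h2⟩
      rw [h1] at h
      have h3 : b ≠ false := fun h4 => h (h2.1 h4)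
      rw [Bool.eq_true_of_not_eq_false h3, h1]

theorem lo_nonneg {m : List Bool → ℝ} (hm : IsMeas m) (σ : List Bool) : 0 ≤ lo m σ := by
  induction σ with
  | nil => exact le_rfl
  | cons b σ ih =>
    cases b
    · exact ih
    · exact add_nonneg ih (hm.nonneg _)

theorem lo_add_le {m : List Bool → ℝ} (hm : IsMeas m) (σ : List Bool) : lo m σ + m σ ≤ 1 := by
  induction σ with
  | nil => rw [lo, hm.one, zero_add]
  | cons b σ ih =>
    have h1 := hm.add σ
    have h2 := hm.nonneg (true :: σ)
    cases b
    · rw [lo]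
      linarith
    · rw [lo]
      linarith

theorem nd_iff {m : List Bool → ℝ} (hm : IsMeas m) {t : ℝ} (ht0 : 0 ≤ t) (ht1 : t < 1)
    (σ : List Bool) : nd m t σ.length = σ ↔ lo m σ ≤ t ∧ t < lo m σ + m σ := by
  induction σ with
  | nil =>
    rw [lo, hm.one, zero_add]
    exact ⟨fun _ => ⟨ht0, ht1⟩, fun _ => rfl⟩
  | cons b σ ih =>
    rw [List.length_cons, nd_cons, ih]
    have h1 := hm.add σ
    have h2 := hm.nonneg (true :: σ)
    have h3 := hm.nonneg (false :: σ)
    cases b
    · rw [lo]
      constructor
      · rintro ⟨h4, h5⟩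
        exact ⟨h4.1, h5.1 rfl⟩
      · rintro ⟨h4, h5⟩
        exact ⟨⟨h4, by linarith⟩, fun _ => h5, fun _ => rfl⟩
    · rw [lo]
      constructor
      · rintro ⟨h4, h5⟩
        have h6 : ¬ t < lo m σ + m (false :: σ) := fun h7 => absurd (h5.2 h7) (by decide)
        exact ⟨not_lt.1 h6, by linarith⟩
      · rintro ⟨h4, h5⟩
        exact ⟨⟨by linarith, by linarith⟩, fun h6 => absurd h6 (by decide),
          fun h6 => absurd h6 (not_lt.2 h4)⟩

theorem measurable_lo (σ : List Bool) : Measurable fun m : List Bool → ℝ => lo m σ := by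
  induction σ with
  | nil => exact measurable_const
  | cons b σ ih =>
    cases b
    · exact ih
    · exact ih.add (measurable_pi_apply _)

theorem measurableSet_nd (σ : List Bool) :
    MeasurableSet {p : (List Bool → ℝ) × unitInterval | nd p.1 p.2 σ.length = σ} := by
  induction σ with
  | nil =>
    have : {p : (List Bool → ℝ) × unitInterval | nd p.1 p.2 ([] : List Bool).length = []} =
        Set.univ := Set.eq_univ_of_forall fun p => rfl
    rw [this]
    exact MeasurableSet.univ
  | cons b σ ih =>
    have h1 : {p : (List Bool → ℝ) × unitInterval | nd p.1 p.2 (b :: σ).length = b :: σ} =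
        {p | nd p.1 p.2 σ.length = σ} ∩
          {p | b = false ↔ (p.2 : ℝ) < lo p.1 σ + p.1 (false :: σ)} := by
      ext p
      exact nd_cons p.1 p.2 b σ
    rw [h1]
    refine ih.inter ?_
    have h2 : MeasurableSet {p : (List Bool → ℝ) × unitInterval |
        (p.2 : ℝ) < lo p.1 σ + p.1 (false :: σ)} :=
      measurableSet_lt (measurable_subtype_coe.comp measurable_snd)
        (((measurable_lo σ).comp measurable_fst).add
          ((measurable_pi_apply (false :: σ)).comp measurable_fst))
    cases b
    · have h3 : {p : (List Bool → ℝ) × unitInterval |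
          false = false ↔ (p.2 : ℝ) < lo p.1 σ + p.1 (false :: σ)} =
          {p | (p.2 : ℝ) < lo p.1 σ + p.1 (false :: σ)} := by
        ext p
        exact ⟨fun h => h.1 rfl, fun h => ⟨fun _ => h, fun _ => rfl⟩⟩
      rw [h3]
      exact h2
    · have h3 : {p : (List Bool → ℝ) × unitInterval |
          true = false ↔ (p.2 : ℝ) < lo p.1 σ + p.1 (false :: σ)} =
          {p | (p.2 : ℝ) < lo p.1 σ + p.1 (false :: σ)}ᶜ := by
        ext p
        exact ⟨fun h h' => absurd (h.2 h') (by decide), fun h => ⟨fun h' => absurd h' (by decide),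
          fun h' => absurd h' h⟩⟩
      rw [h3]
      exact h2.compl

theorem isQ : IsQ F := by
  refine ⟨fun σ => ?_, fun m hm σ => ?_⟩
  · have h1 : {p : (List Bool → ℝ) × unitInterval | IsInit σ (F p.1 p.2)} =
        {p | nd p.1 p.2 σ.length = σ} := by
      ext p
      exact isInit_iff p.1 p.2 σ
    rw [h1]
    exact measurableSet_nd σ
  · have h0 : 0 ≤ lo m σ := lo_nonneg hm σ
    have h1 : lo m σ + m σ ≤ 1 := lo_add_le hm σ
    have hae : {t : unitInterval | IsInit σ (F m t)} =ᵐ[volume]
        {t : unitInterval | lo m σ ≤ t ∧ (t : ℝ) < lo m σ + m σ} := by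
      have h2 : ∀ᵐ t : unitInterval ∂volume, t ≠ 1 := by
        rw [ae_iff]
        simp
      filter_upwards [h2] with t ht
      have ht1 : (t : ℝ) < 1 := lt_of_le_of_ne t.2.2 fun h => ht (Subtype.ext h)
      have h3 : IsInit σ (F m t) ↔ lo m σ ≤ t ∧ (t : ℝ) < lo m σ + m σ := by
        rw [isInit_iff]
        exact nd_iff hm t.2.1 ht1 σ
      exact propext h3
    rw [measure_congr hae, unitInterval.volume_apply]
    have h4 : Subtype.val '' {t : unitInterval | lo m σ ≤ t ∧ (t : ℝ) < lo m σ + m σ} =
        Set.Ico (lo m σ) (lo m σ + m σ) := by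
      ext x
      constructor
      · rintro ⟨t, ht, rfl⟩
        exact ht
      · intro hx
        exact ⟨⟨x, h0.trans hx.1, hx.2.le.trans h1⟩, hx, rfl⟩
    rw [h4, Real.volume_Ico, add_sub_cancel_left]

end A5

theorem stQ : StQ := ⟨A5.F, A5.isQ⟩

end RM

end SymExt
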