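import Pool.Agent.Lib.MP_8b9ec4_lc.RM.Alg

set_option autoImplicit false

/-!
# The random real of a new coordinate is not covered
-/

namespace SymExt

namespace RM

open MeasureTheory

namespace A6

/-- values at random nodes are measurable -/
theorem measurable_val {m : Om → List Bool → ℝ} (hm : ∀ σ, Measurable fun ω => m ω σ)
    {c : Om → ℕ → List Bool} (hc : CM c) (j : ℕ) : Measurable fun ω => m ω (c ω j) := by
  intro S hS
  have h : (fun ω => m ω (c ω j)) ⁻¹' S =
      ⋃ σ : List Bool, {ω | c ω j = σ} ∩ (fun ω => m ω σ) ⁻¹' S := by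
    ext ω
    simp only [Set.mem_preimage, Set.mem_iUnion, Set.mem_inter_iff, Set.mem_setOf_eq]
    constructor
    · intro h
      exact ⟨c ω j, rfl, h⟩
    · rintro ⟨σ, h1, h2⟩
      rw [h1]
      exact h2
  rw [h]
  exact MeasurableSet.iUnion fun σ => (hc j σ).inter (hm σ hS)

/-- the event on the sum is measurable -/
theorem measurableSet_evSum {m : Om → List Bool → ℝ} (hm : ∀ σ, Measurable fun ω => m ω σ)
    {c : Om → ℕ → List Bool} (hc : CM c) (i : ℕ) : MeasurableSet (evSum m c i) :=
  measurableSet_le (Measurable.ennreal_tsum fun j => (measurable_val hm hc j).ennreal_ofReal)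
    measurable_const

/-- the event that the real `F (m ω) t` is covered is measurable -/
theorem measurableSet_cov {F : (List Bool → ℝ) → unitInterval → Set ℕ}
    (hF : ∀ σ, MeasurableSet {p : (List Bool → ℝ) × unitInterval | IsInit σ (F p.1 p.2)})
    {m : Om → List Bool → ℝ} (hm : ∀ σ, Measurable fun ω => m ω σ)
    {c : Om → ℕ → List Bool} (hc : CM c) :
    MeasurableSet {p : Om × unitInterval | ∃ j, IsInit (c p.1 j) (F (m p.1) p.2)} := by
  have hg : Measurable fun p : Om × unitInterval => (m p.1, p.2) :=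
    ((measurable_pi_iff.2 hm).comp measurable_fst).prodMk measurable_snd
  have h : {p : Om × unitInterval | ∃ j, IsInit (c p.1 j) (F (m p.1) p.2)} =
      ⋃ j : ℕ, ⋃ σ : List Bool, (Prod.fst ⁻¹' {ω | c ω j = σ}) ∩
        (fun p : Om × unitInterval => (m p.1, p.2)) ⁻¹'
          {p : (List Bool → ℝ) × unitInterval | IsInit σ (F p.1 p.2)} := by
    ext p
    simp only [Set.mem_preimage, Set.mem_iUnion, Set.mem_inter_iff, Set.mem_setOf_eq]
    constructor
    · rintro ⟨j, h⟩
      exact ⟨j, c p.1 j, rfl, h⟩
    · rintro ⟨j, σ, h1, h2⟩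
      refine ⟨j, ?_⟩
      rw [h1]
      exact h2
  rw [h]
  exact MeasurableSet.iUnion fun j => MeasurableSet.iUnion fun σ =>
    (measurable_fst (hc j σ)).inter (hg (hF σ))

/-- real numbers with the same strict upper bounds are equal -/
theorem eq_of_lt {x y : ℝ} (h : ∀ q, x < q ↔ y < q) : x = y :=
  le_antisymm (le_of_forall_gt fun q hq => (h q).2 hq) (le_of_forall_gt fun q hq => (h q).1 hq)

end A6

open A6

/-- Module A6 (the random real of a new coordinate is not covered). -/
theorem stNull (h : StFub) : StNull := by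
  intro F hF m hm β hdm c hc hdc i
  set D : Set (Om × unitInterval) :=
    {p | p.1 ∈ evSum m c i ∧ ∃ j, IsInit (c p.1 j) (F (m p.1) p.2)} with hD
  have hDm : MeasurableSet D :=
    (measurable_fst (measurableSet_evSum hm.1 hc i)).inter (measurableSet_cov hF.1 hm.1 hc)
  have hdep : ∀ t, DepOn {ω | (ω, t) ∈ D} {β}ᶜ := by
    intro t ω ω' hω
    have e1 : m ω = m ω' := by
      funext σ
      exact eq_of_lt fun q => hdm σ q ω ω' hω
    have e2 : c ω = c ω' := by
      funext j
      exact ((hdc j (c ω' j) ω ω' hω).2 rfl)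
    simp only [hD, evSum, Set.mem_setOf_eq, e1, e2]
  have hfub := h β D hDm hdep
  have e3 : evSum m c i ∩ {ω | ∃ j, IsInit (c ω j) (F (m ω) (ω β))} = {ω | (ω, ω β) ∈ D} := rfl
  rw [e3, hfub]
  calc ∫⁻ ω, volume {t | (ω, t) ∈ D} ∂mu ≤ ∫⁻ _, ENNReal.ofReal ((1 / 2) ^ i) ∂mu := by
        refine lintegral_mono fun ω => ?_
        by_cases hω : ω ∈ evSum m c i
        · have h1 : {t : unitInterval | (ω, t) ∈ D} ⊆
              ⋃ j, {t | IsInit (c ω j) (F (m ω) t)} := by
            rintro t ⟨-, j, hj⟩
            exact Set.mem_iUnion.2 ⟨j, hj⟩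
          calc volume {t : unitInterval | (ω, t) ∈ D}
              ≤ volume (⋃ j, {t | IsInit (c ω j) (F (m ω) t)}) := measure_mono h1
            _ ≤ ∑' j, volume {t | IsInit (c ω j) (F (m ω) t)} := measure_iUnion_le _
            _ = ∑' j, ENNReal.ofReal (m ω (c ω j)) := by
                refine tsum_congr fun j => ?_
                exact hF.2 (m ω) (hm.2 ω) _
            _ ≤ ENNReal.ofReal ((1 / 2) ^ i) := hω
        · have h1 : {t : unitInterval | (ω, t) ∈ D} = ∅ := by
            ext t
            simp only [Set.mem_setOf_eq, Set.mem_empty_iff_false, iff_false]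
            exact fun h => hω h.1
          rw [h1, measure_empty]
          exact bot_le
    _ = ENNReal.ofReal ((1 / 2) ^ i) := by
        rw [lintegral_const, measure_univ, mul_one]

end RM

end SymExt
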