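import Pool.Agent.Lib.MP_8b9ec4_lc.RM.Alg

/-!
# The main Boolean lemma
-/

namespace SymExt

namespace RM

open MeasureTheory

namespace A7

/-! ### The measure algebra -/

section MA

variable {Ω : Type} [MeasurableSpace Ω] {μ : Measure Ω} {𝔹 : Type} [CompleteBooleanAlgebra 𝔹]
  {e : Set Ω → 𝔹}

theorem e_mono (h : MAlg μ e) {A B : Set Ω} (hA : MeasurableSet A) (hB : MeasurableSet B)
    (hAB : A ⊆ B) : e A ≤ e B := by
  rw [h.le_iff A B hA hB, Set.sdiff_eq_empty.2 hAB, measure_empty]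

theorem e_inter (h : MAlg μ e) {A B : Set Ω} (hA : MeasurableSet A) (hB : MeasurableSet B) :
    e A ⊓ e B ≤ e (A ∩ B) := by
  obtain ⟨C, hC, hCe⟩ := h.surj (e A ⊓ e B)
  rw [← hCe]
  have h1 := (h.le_iff C A hC hA).1 (hCe.le.trans inf_le_left)
  have h2 := (h.le_iff C B hC hB).1 (hCe.le.trans inf_le_right)
  rw [h.le_iff C _ hC (hA.inter hB)]
  have : C \ (A ∩ B) ⊆ (C \ A) ∪ (C \ B) := fun x hx => by
    by_cases hxA : x ∈ A
    · exact Or.inr ⟨hx.1, fun hxB => hx.2 ⟨hxA, hxB⟩⟩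
    · exact Or.inl ⟨hx.1, hxA⟩
  exact measure_mono_null this (measure_union_null h1 h2)

theorem e_null (h : MAlg μ e) {A : Set Ω} (hA : MeasurableSet A) (h0 : μ A = 0) : e A = ⊥ := by
  obtain ⟨C, hC, hCe⟩ := h.surj ⊥
  refine le_bot_iff.1 ?_
  rw [← hCe, h.le_iff A C hA hC]
  exact measure_mono_null Set.sdiff_subset h0

/-- an element below events of arbitrarily small measure is zero -/
theorem eq_bot (h : MAlg μ e) {b : 𝔹}
    (hb : ∀ i : ℕ, ∃ A, MeasurableSet A ∧ b ≤ e A ∧ μ A ≤ ENNReal.ofReal ((1 / 2) ^ i)) :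
    b = ⊥ := by
  obtain ⟨C, hC, hCe⟩ := h.surj b
  rw [← hCe]
  apply e_null h hC
  have h1 : ∀ i : ℕ, μ C ≤ ENNReal.ofReal ((1 / 2) ^ i) := by
    intro i
    obtain ⟨A, hA, hbA, hμ⟩ := hb i
    rw [← hCe, h.le_iff C A hC hA] at hbA
    calc μ C ≤ μ ((C \ A) ∪ A) := measure_mono (fun x hx => by
          by_cases hxA : x ∈ A
          · exact Or.inr hxA
          · exact Or.inl ⟨hx, hxA⟩)
      _ ≤ μ (C \ A) + μ A := measure_union_le _ _
      _ = μ A := by rw [hbA, zero_add]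
      _ ≤ _ := hμ
  have h2 : Filter.Tendsto (fun i : ℕ => ENNReal.ofReal ((1 / 2 : ℝ) ^ i)) Filter.atTop
      (nhds 0) := by
    have h3 : Filter.Tendsto (fun i : ℕ => (1 / 2 : ℝ) ^ i) Filter.atTop (nhds 0) :=
      tendsto_pow_atTop_nhds_zero_of_lt_one (by norm_num) (by norm_num)
    have h4 := ENNReal.tendsto_ofReal h3
    rwa [ENNReal.ofReal_zero] at h4
  exact le_bot_iff.1 (ge_of_tendsto' h2 h1)

end MA

/-! ### Measurability -/

theorem init_length (r : Set ℕ) (n : ℕ) : (init r n).length = n := by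
  induction n with
  | zero => rfl
  | succ n ih => simp [init, ih]

theorem isInit_cons (b : Bool) (σ : List Bool) (r : Set ℕ) :
    IsInit (b :: σ) r ↔ ((σ.length ∈ r) ↔ b = true) ∧ IsInit σ r := by
  classical
  unfold IsInit
  rw [List.length_cons]
  change decide (σ.length ∈ r) :: init r σ.length = b :: σ ↔ _
  rw [List.cons.injEq]
  refine and_congr_left fun _ => ?_
  cases b <;> simp

theorem meas_init {t : Om → Set ℕ} (ht : SR t) (σ : List Bool) :
    MeasurableSet {ω | IsInit σ (t ω)} := by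
  induction σ with
  | nil =>
    have : {ω | IsInit [] (t ω)} = Set.univ := by
      ext ω
      simp [IsInit, init]
    rw [this]
    exact MeasurableSet.univ
  | cons b σ ih =>
    have : {ω | IsInit (b :: σ) (t ω)} =
        (if b = true then {ω | σ.length ∈ t ω} else {ω | σ.length ∈ t ω}ᶜ) ∩
          {ω | IsInit σ (t ω)} := by
      ext ω
      rw [Set.mem_ofPred_eq, isInit_cons]
      cases b <;> simp
    rw [this]
    refine MeasurableSet.inter ?_ ih
    split_ifs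
    · exact ht _
    · exact (ht _).compl

theorem sr_symm {s t : Om → Set ℕ} (hs : SR s) (ht : SR t) :
    SR (fun ω => symmDiff (s ω) (t ω)) := by
  intro n
  have : {ω | n ∈ symmDiff (s ω) (t ω)} =
      ({ω | n ∈ s ω} \ {ω | n ∈ t ω}) ∪ ({ω | n ∈ t ω} \ {ω | n ∈ s ω}) := by
    ext ω
    simp [Set.mem_symmDiff]
  rw [this]
  exact ((hs n).diff (ht n)).union ((ht n).diff (hs n))

theorem sr_F {F : (List Bool → ℝ) → unitInterval → Set ℕ} (hF : IsQ F)
    {m : Om → List Bool → ℝ} (hm : MM m) (γ : I) : SR (fun ω => F (m ω) (ω γ)) := by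
  intro n
  have h1 : Measurable fun ω : Om => (m ω, ω γ) :=
    (measurable_pi_iff.2 hm.1).prodMk (measurable_pi_apply γ)
  have : {ω : Om | n ∈ F (m ω) (ω γ)} = ⋃ σ : {σ : List Bool // σ.length = n},
      {ω : Om | IsInit (true :: σ.1) (F (m ω) (ω γ))} := by
    ext ω
    rw [Set.mem_iUnion]
    constructor
    · intro h
      refine ⟨⟨init (F (m ω) (ω γ)) n, init_length _ _⟩, ?_⟩
      rw [Set.mem_ofPred_eq, isInit_cons]
      refine ⟨?_, ?_⟩
      · rw [init_length]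
        simpa using h
      · unfold IsInit
        rw [init_length]
    · rintro ⟨⟨σ, hσ⟩, h⟩
      rw [Set.mem_ofPred_eq, isInit_cons] at h
      have := h.1.2 rfl
      rwa [hσ] at this
  rw [this]
  exact MeasurableSet.iUnion fun σ => h1 (hF.1 (true :: σ.1))

theorem meas_sum {m : Om → List Bool → ℝ} (hm : MM m) {c : Om → ℕ → List Bool} (hc : CM c)
    (i : ℕ) : MeasurableSet (evSum m c i) := by
  have h1 : ∀ j, Measurable fun ω => m ω (c ω j) := by
    intro j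
    refine measurable_of_Iic fun a => ?_
    have : (fun ω => m ω (c ω j)) ⁻¹' Set.Iic a =
        ⋃ σ : List Bool, {ω | c ω j = σ} ∩ (fun ω => m ω σ) ⁻¹' Set.Iic a := by
      ext ω
      simp only [Set.mem_preimage, Set.mem_Iic, Set.mem_iUnion, Set.mem_inter_iff,
        Set.mem_ofPred_eq]
      constructor
      · intro h
        exact ⟨c ω j, rfl, h⟩
      · rintro ⟨σ, rfl, h⟩
        exact h
    rw [this]
    exact MeasurableSet.iUnion fun σ => (hc j σ).inter (hm.1 σ measurableSet_Iic)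
  have h2 : Measurable fun ω => ∑' j, ENNReal.ofReal (m ω (c ω j)) :=
    Measurable.tsum fun j => (h1 j).ennreal_ofReal
  exact h2 measurableSet_Iic

theorem meas_cov' {t : Om → Set ℕ} (ht : SR t) {c : Om → ℕ → List Bool} (hc : CM c) :
    MeasurableSet {ω | ∃ j, IsInit (c ω j) (t ω)} := by
  have : {ω | ∃ j, IsInit (c ω j) (t ω)} =
      ⋃ j : ℕ, ⋃ σ : List Bool, {ω | c ω j = σ} ∩ {ω | IsInit σ (t ω)} := by
    ext ω
    simp only [Set.mem_iUnion, Set.mem_inter_iff, Set.mem_ofPred_eq]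
    constructor
    · rintro ⟨j, h⟩
      exact ⟨j, c ω j, rfl, h⟩
    · rintro ⟨j, σ, rfl, h⟩
      exact ⟨j, h⟩
  rw [this]
  exact MeasurableSet.iUnion fun j => MeasurableSet.iUnion fun σ =>
    (hc j σ).inter (meas_init ht σ)

theorem meas_cov {s r : Om → Set ℕ} (hs : SR s) (hr : SR r) {c : Om → ℕ → List Bool}
    (hc : CM c) : MeasurableSet (evCov c s r) := meas_cov' (sr_symm hs hr) hc

/-! ### Mixing -/

section Mix

variable {𝔹 : Type} [CompleteBooleanAlgebra 𝔹] {e : Set Om → 𝔹}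

theorem inner_local (h : MAlg mu e) (θ : (Om → Set ℕ) → 𝔹) {m : Om → List Bool → ℝ}
    (hm : MM m) {r : Om → Set ℕ} (hr : SR r) (i : ℕ) (c c' : Om → ℕ → List Bool) (hc : CM c)
    (hc' : CM c') (A : Set Om) (hA : MeasurableSet A) (hcc : ∀ ω ∈ A, c ω = c' ω) :
    e A ⊓ inner e θ m r i c ≤ inner e θ m r i c' := by
  refine le_inf ?_ (le_iInf fun s => ?_)
  · have h1 : e A ⊓ inner e θ m r i c ≤ e A ⊓ e (evSum m c i) :=
      inf_le_inf_left _ inf_le_left
    refine h1.trans ((e_inter h hA (meas_sum hm hc i)).trans (e_mono h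
      (hA.inter (meas_sum hm hc i)) (meas_sum hm hc' i) ?_))
    rintro ω ⟨hω, h2⟩
    change ∑' j, ENNReal.ofReal (m ω (c' ω j)) ≤ _
    rw [← hcc ω hω]
    exact h2
  · rw [le_himp_iff]
    have h1 : inner e θ m r i c ≤ θ s.1 ⇨ e (evCov c s.1 r) := inf_le_right.trans (iInf_le _ s)
    have h2 : inner e θ m r i c ⊓ θ s.1 ≤ e (evCov c s.1 r) := by
      rw [← le_himp_iff]; exact h1
    have h3 : e A ⊓ inner e θ m r i c ⊓ θ s.1 ≤ e A ⊓ e (evCov c s.1 r) := by
      rw [inf_assoc]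
      exact inf_le_inf_left _ h2
    refine h3.trans ((e_inter h hA (meas_cov s.2 hr hc)).trans (e_mono h
      (hA.inter (meas_cov s.2 hr hc)) (meas_cov s.2 hr hc') ?_))
    rintro ω ⟨hω, j, hj⟩
    refine ⟨j, ?_⟩
    rw [← hcc ω hω]
    exact hj

theorem exists_c (hM : StMix) (h : MAlg mu e) (θ : (Om → Set ℕ) → 𝔹)
    {m : Om → List Bool → ℝ} (hm : MM m) {b : 𝔹} (hb : b ≤ bN e θ m) {r : Om → Set ℕ}
    (hr : SR r) (i : ℕ) : ∃ c, CM c ∧ b ≤ inner e θ m r i c := by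
  refine hM Om mu 𝔹 e h (inner e θ m r i)
    (fun c c' hc hc' A hA hcc => inner_local h θ hm hr i c c' hc hc' A hA hcc) b ?_
  exact hb.trans ((iInf_le _ (⟨r, hr⟩ : {r : Om → Set ℕ // SR r})).trans (iInf_le _ i))

theorem inner_sum {θ : (Om → Set ℕ) → 𝔹} {m : Om → List Bool → ℝ} {r : Om → Set ℕ} {i : ℕ}
    {c : Om → ℕ → List Bool} {b : 𝔹} (hb : b ≤ inner e θ m r i c) : b ≤ e (evSum m c i) :=
  hb.trans inf_le_left

theorem inner_cov {θ : (Om → Set ℕ) → 𝔹} {m : Om → List Bool → ℝ} {r : Om → Set ℕ} {i : ℕ}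
    {c : Om → ℕ → List Bool} {b : 𝔹} (hb : b ≤ inner e θ m r i c) {s : Om → Set ℕ}
    (hs : SR s) : b ⊓ θ s ≤ e (evCov c s r) := by
  rw [← le_himp_iff]
  exact hb.trans (inf_le_right.trans (iInf_le _ (⟨s, hs⟩ : {s : Om → Set ℕ // SR s})))

end Mix

/-! ### Supports -/

theorem depOn_mono {A : Set Om} {J J' : Set I} (h : DepOn A J) (hJ : J ⊆ J') : DepOn A J' :=
  fun ω ω' hω => h ω ω' fun i hi => hω i (hJ hi)

/-- a countable support of a random sequence of nodes -/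
theorem supp_c (hS : StSupp) {c : Om → ℕ → List Bool} (hc : CM c) :
    ∃ J : Set I, J.Countable ∧ ∀ j σ, DepOn {ω | c ω j = σ} J := by
  choose J hJ hJ' using fun (j : ℕ) (σ : List Bool) => hS _ (hc j σ)
  refine ⟨⋃ j, ⋃ σ, J j σ, Set.countable_iUnion fun j => Set.countable_iUnion fun σ => hJ j σ,
    fun j σ => depOn_mono (hJ' j σ) ?_⟩
  exact (Set.subset_iUnion (J j) σ).trans (Set.subset_iUnion (fun j => ⋃ σ, J j σ) j)

/-- a countable support of a random measure -/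
theorem supp_m (hS : StSupp) {m : Om → List Bool → ℝ} (hm : MM m) :
    ∃ J : Set I, J.Countable ∧ ∀ (σ : List Bool) (q : ℝ), DepOn {ω | m ω σ < q} J := by
  choose J hJ hJ' using fun (σ : List Bool) (k : ℚ) =>
    hS {ω | m ω σ < (k : ℝ)} (hm.1 σ measurableSet_Iio)
  refine ⟨⋃ σ, ⋃ k, J σ k, Set.countable_iUnion fun σ => Set.countable_iUnion fun k => hJ σ k,
    fun σ q ω ω' hω => ?_⟩
  have h1 : ∀ k : ℚ, (m ω σ < (k : ℝ) ↔ m ω' σ < (k : ℝ)) := fun k =>
    depOn_mono (hJ' σ k) ((Set.subset_iUnion (J σ) k).trans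
      (Set.subset_iUnion (fun σ => ⋃ k, J σ k) σ)) ω ω' hω
  have h2 : m ω σ = m ω' σ := by
    refine le_antisymm (le_of_forall_rat_lt_imp_le fun k hk => ?_)
      (le_of_forall_rat_lt_imp_le fun k hk => ?_)
    · by_contra hcon
      rw [not_le] at hcon
      exact absurd ((h1 k).2 hcon) (not_lt.2 hk.le)
    · by_contra hcon
      rw [not_le] at hcon
      exact absurd ((h1 k).1 hcon) (not_lt.2 hk.le)
  rw [Set.mem_ofPred_eq, Set.mem_ofPred_eq, h2]

theorem exists_beta (J : Set ℕ → Set I) (hJ : ∀ α, (J α).Countable) :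
    ∃ β : Set (Set ℕ), ∀ α, Sum.inr β ∉ J α := by
  by_contra hcon
  push Not at hcon
  have h1 : (⋃ α : Set ℕ, {β : Set (Set ℕ) | Sum.inr β ∈ J α}) = Set.univ := by
    ext β
    simp only [Set.mem_iUnion, Set.mem_ofPred_eq, Set.mem_univ, iff_true]
    exact hcon β
  have h2 : ∀ α, ({β : Set (Set ℕ) | Sum.inr β ∈ J α}).Countable := fun α =>
    (hJ α).preimage Sum.inr_injective
  have h3 := Cardinal.mk_iUnion_le (fun α : Set ℕ => {β : Set (Set ℕ) | (Sum.inr β : I) ∈ J α})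
  rw [h1, Cardinal.mk_univ] at h3
  have h4 : (⨆ α : Set ℕ, Cardinal.mk {β : Set (Set ℕ) | (Sum.inr β : I) ∈ J α}) ≤
      Cardinal.aleph0 := ciSup_le' fun α => (h2 α).le_aleph0
  have h5 : Cardinal.mk (Set (Set ℕ)) ≤ Cardinal.mk (Set ℕ) * Cardinal.aleph0 :=
    h3.trans (mul_le_mul' le_rfl h4)
  have h6 : Cardinal.mk (Set ℕ) = Cardinal.continuum := by
    rw [Cardinal.mk_set, Cardinal.mk_nat, Cardinal.two_power_aleph0]
  have h7 : Cardinal.mk (Set (Set ℕ)) = 2 ^ Cardinal.continuum := by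
    rw [Cardinal.mk_set, h6]
  rw [h7, h6, Cardinal.continuum_mul_aleph0] at h5
  exact absurd h5 (not_le.2 (Cardinal.cantor _))

theorem exists_alpha (J : Set I) (hJ : J.Countable) : ∃ α : Set ℕ, (Sum.inl α : I) ∉ J := by
  by_contra hcon
  push Not at hcon
  have h1 : {α : Set ℕ | (Sum.inl α : I) ∈ J} = Set.univ := by
    ext α
    simp only [Set.mem_ofPred_eq, Set.mem_univ, iff_true]
    exact hcon α
  have h2 : ({α : Set ℕ | (Sum.inl α : I) ∈ J}).Countable := hJ.preimage Sum.inl_injective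
  rw [h1] at h2
  have h3 := h2.le_aleph0
  rw [Cardinal.mk_univ, Cardinal.mk_set, Cardinal.mk_nat] at h3
  exact absurd h3 (not_le.2 (Cardinal.cantor _))

end A7

open A7 in
/-- Module A7. -/
theorem stE (h1 : StMix) (h2 : StSupp) (h3 : StQ) (h4 : StNull) : StE := by
  intro 𝔹 _ e he θ _ m m' hm hm'
  obtain ⟨F, hF⟩ := h3
  set b := bN e θ m ⊓ bN e (fun s => (θ s)ᶜ) m' with hb
  let y : Set ℕ → Om → Set ℕ := fun α ω => F (m' ω) (ω (Sum.inl α))
  have hy : ∀ α, SR (y α) := fun α => sr_F hF hm' _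
  have hc : ∀ (α : Set ℕ) (i : ℕ), ∃ c, CM c ∧ b ≤ inner e θ m (y α) i c := fun α i =>
    exists_c h1 he θ hm inf_le_left (hy α) i
  choose c hcm hcb using hc
  have hJ1 : ∀ (α : Set ℕ) (i : ℕ), ∃ J : Set I, J.Countable ∧
      ∀ j σ, DepOn {ω | c α i ω j = σ} J := fun α i => supp_c h2 (hcm α i)
  choose J hJc hJd using hJ1
  obtain ⟨Jm, hJmc, hJmd⟩ := supp_m h2 hm
  obtain ⟨β, hβ⟩ := exists_beta (fun α => Jm ∪ ⋃ i, J α i) (fun α =>
    hJmc.union (Set.countable_iUnion fun i => hJc α i))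
  set γ : I := Sum.inr β with hγ
  let x : Om → Set ℕ := fun ω => F (m ω) (ω γ)
  have hx : SR x := sr_F hF hm γ
  have hmγ : ∀ (σ : List Bool) (q : ℝ), DepOn {ω | m ω σ < q} {γ}ᶜ := fun σ q =>
    depOn_mono (hJmd σ q) (fun i hi => by
      intro h0
      rw [Set.mem_singleton_iff] at h0
      exact hβ ∅ (Or.inl (h0 ▸ hi)))
  have hcγ : ∀ α i j σ, DepOn {ω | c α i ω j = σ} {γ}ᶜ := fun α i j σ =>
    depOn_mono (hJd α i j σ) (fun k hk => by
      intro h0
      rw [Set.mem_singleton_iff] at h0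
      exact hβ α (Or.inr (Set.mem_iUnion.2 ⟨i, h0 ▸ hk⟩)))
  -- first part
  have hθ : ∀ α, b ≤ (θ (fun ω => symmDiff (x ω) (y α ω)))ᶜ := by
    intro α
    have hs : SR (fun ω => symmDiff (x ω) (y α ω)) := sr_symm hx (hy α)
    rw [le_compl_iff_disjoint_right, disjoint_iff]
    refine eq_bot he fun i => ?_
    refine ⟨evSum m (c α i) i ∩ {ω | ∃ j, IsInit (c α i ω j) (F (m ω) (ω γ))},
      (meas_sum hm (hcm α i) i).inter (meas_cov' hx (hcm α i)), ?_,
      h4 F hF m hm γ hmγ (c α i) (hcm α i) (hcγ α i) i⟩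
    refine le_trans (le_inf (inf_le_left.trans (inner_sum (hcb α i))) ?_)
      (e_inter he (meas_sum hm (hcm α i) i) (meas_cov' hx (hcm α i)))
    have h5 := inner_cov (hcb α i) hs
    have h6 : evCov (c α i) (fun ω => symmDiff (x ω) (y α ω)) (y α) =
        {ω | ∃ j, IsInit (c α i ω j) (F (m ω) (ω γ))} := by
      ext ω
      unfold evCov
      rw [Set.mem_ofPred_eq, Set.mem_ofPred_eq, symmDiff_symmDiff_cancel_right]
    rwa [h6] at h5
  -- second part
  have hc' : ∀ i : ℕ, ∃ c, CM c ∧ b ≤ inner e (fun s => (θ s)ᶜ) m' x i c := fun i =>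
    exists_c h1 he _ hm' inf_le_right hx i
  choose c' hcm' hcb' using hc'
  have hJ2 : ∀ i : ℕ, ∃ J : Set I, J.Countable ∧ ∀ j σ, DepOn {ω | c' i ω j = σ} J :=
    fun i => supp_c h2 (hcm' i)
  choose J' hJc' hJd' using hJ2
  obtain ⟨Jm', hJmc', hJmd'⟩ := supp_m h2 hm'
  obtain ⟨α, hα⟩ := exists_alpha (Jm' ∪ ⋃ i, J' i)
    (hJmc'.union (Set.countable_iUnion fun i => hJc' i))
  have hmα : ∀ (σ : List Bool) (q : ℝ), DepOn {ω | m' ω σ < q} {(Sum.inl α : I)}ᶜ := fun σ q =>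
    depOn_mono (hJmd' σ q) (fun i hi => by
      intro h0
      rw [Set.mem_singleton_iff] at h0
      exact hα (Or.inl (h0 ▸ hi)))
  have hcα : ∀ i j σ, DepOn {ω | c' i ω j = σ} {(Sum.inl α : I)}ᶜ := fun i j σ =>
    depOn_mono (hJd' i j σ) (fun k hk => by
      intro h0
      rw [Set.mem_singleton_iff] at h0
      exact hα (Or.inr (Set.mem_iUnion.2 ⟨i, h0 ▸ hk⟩)))
  have hs : SR (fun ω => symmDiff (x ω) (y α ω)) := sr_symm hx (hy α)
  refine eq_bot he fun i => ?_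
  refine ⟨evSum m' (c' i) i ∩ {ω | ∃ j, IsInit (c' i ω j) (F (m' ω) (ω (Sum.inl α)))},
    (meas_sum hm' (hcm' i) i).inter (meas_cov' (hy α) (hcm' i)), ?_,
    h4 F hF m' hm' (Sum.inl α) hmα (c' i) (hcm' i) (hcα i) i⟩
  refine le_trans (le_inf (inner_sum (hcb' i)) ?_)
    (e_inter he (meas_sum hm' (hcm' i) i) (meas_cov' (hy α) (hcm' i)))
  have h5 := inner_cov (hcb' i) hs
  have h6 : evCov (c' i) (fun ω => symmDiff (x ω) (y α ω)) x =
      {ω | ∃ j, IsInit (c' i ω j) (F (m' ω) (ω (Sum.inl α)))} := by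
    ext ω
    unfold evCov
    rw [Set.mem_ofPred_eq, Set.mem_ofPred_eq]
    have h7 : symmDiff (symmDiff (x ω) (y α ω)) (x ω) = F (m' ω) (ω (Sum.inl α)) := by
      rw [symmDiff_comm (x ω) (y α ω), symmDiff_symmDiff_cancel_right]
    change (∃ j, IsInit (c' i ω j) (symmDiff (symmDiff (x ω) (y α ω)) (x ω))) ↔ _
    rw [h7]
  rw [h6] at h5
  exact (le_inf le_rfl (hθ α)).trans h5

end RM

end SymExt
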