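import Pool.Agent.Lib.MP_70f607_gt.Defs

/-!
# Naively Haar null subsets of the Cantor group in transitive models of ZFC

`IsZFC` (transitive model of ZFC) is in `Pool.Agent.Lib.MP_70f607_gt.Defs`; `IsZF`, `natSet` and
`nodeSet` are in `Pool.Agent.Lib.MP_694cb9_lc.Defs`.

The Cantor group is the group of all subsets of `ω` with symmetric difference, i.e. the Polish
group `(ℤ/2)^ω`.  A Borel probability measure on it is given by its values on the basic clopen sets
(the nodes `σ`), and a set has outer measure `0` if for every `i` it is covered by a sequence of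
basic clopen sets with sum of the measures at most `2^(-i)`.
-/

namespace SymExt

namespace RM

universe u

/-- The subset `r` of `ω` as a set. -/
noncomputable def realSet (r : Set ℕ) : ZFSet.{u} :=
  ZFSet.sep (fun z => ∃ n ∈ r, z = natSet n) ZFSet.omega

open Classical in
/-- The first `n` values of the characteristic function of `r` (written backwards: `b :: σ` is
the sequence `σ` extended by the last value `b`). -/
noncomputable def init (r : Set ℕ) : ℕ → List Bool
  | 0 => []
  | n + 1 => decide (n ∈ r) :: init r n

/-- The node `σ` is an initial segment of (the characteristic function of) `r`. -/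
def IsInit (σ : List Bool) (r : Set ℕ) : Prop := init r σ.length = σ

/-- `m` gives the values of a probability measure on the Cantor space at the basic clopen sets. -/
structure IsMeas (m : List Bool → ℝ) : Prop where
  one : m [] = 1
  nonneg : ∀ σ, 0 ≤ m σ
  add : ∀ σ, m σ = m (false :: σ) + m (true :: σ)

/-- The `k`-th non-negative rational number (every non-negative rational number occurs). -/
noncomputable def rat (k : ℕ) : ℝ := ((Nat.unpair k).1 : ℝ) / ((Nat.unpair k).2 + 1)

/-- The function `m` belongs to `N`: the set of the pairs `(σ, k)` with `m σ < rat k` does. -/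
def MeasIn (N : Set ZFSet.{u}) (m : List Bool → ℝ) : Prop :=
  ∃ g ∈ N, ∀ z, z ∈ g ↔ ∃ (σ : List Bool) (k : ℕ), m σ < rat k ∧
    z = ZFSet.pair (nodeSet σ) (natSet k)

/-- The sequence `c` of nodes belongs to `N`. -/
def NodesIn (N : Set ZFSet.{u}) (c : ℕ → List Bool) : Prop :=
  ∃ g ∈ N, ∀ z, z ∈ g ↔ ∃ j : ℕ, z = ZFSet.pair (natSet j) (nodeSet (c j))

/-- In `N`, the subset `S` of the Cantor group is naively Haar null: there is a Borel probability
measure such that all translates of `S` have outer measure `0`. -/
def NaivelyHaarNull (N : Set ZFSet.{u}) (S : Set (Set ℕ)) : Prop :=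
  ∃ m : List Bool → ℝ, IsMeas m ∧ MeasIn N m ∧
    ∀ r : Set ℕ, realSet r ∈ N → ∀ i : ℕ, ∃ c : ℕ → List Bool, NodesIn N c ∧
      (∀ s ∈ S, ∃ j, IsInit (c j) (symmDiff s r)) ∧
      ∑' j, ENNReal.ofReal (m (c j)) ≤ ENNReal.ofReal ((1 / 2) ^ i)

/-- In `N`, the Cantor group is not the union of two naively Haar null sets `S` and its
complement. -/
def NoPartition (N : Set ZFSet.{u}) : Prop :=
  ∀ S ∈ N, ¬ (NaivelyHaarNull N {r | realSet r ∈ N ∧ realSet r ∈ S} ∧
    NaivelyHaarNull N {r | realSet r ∈ N ∧ realSet r ∉ S})

end RM

end SymExt
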