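import Pool.Agent.Lib.MP_694cb9_lc.RO
import Pool.Agent.Lib.MP_8b9ec4_lc.RM.Defs

/-!
# Measure algebras, random reals and the main Boolean lemma: definitions and statements
-/

namespace SymExt

namespace RM

open MeasureTheory

/-! ### The measure algebra -/

/-- Measurable sets of positive measure, ordered by inclusion. -/
structure Pos {Ω : Type} [MeasurableSpace Ω] (μ : Measure Ω) where
  /-- the set -/
  A : Set Ω
  meas : MeasurableSet A
  pos : μ A ≠ 0

instance {Ω : Type} [MeasurableSpace Ω] (μ : Measure Ω) : Preorder (Pos μ) where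
  le p q := p.A ⊆ q.A
  le_refl p := subset_rfl
  le_trans p q r h1 h2 := h1.trans h2

open Classical in
/-- A measurable set as an element of the complete Boolean algebra. -/
noncomputable def eh {Ω : Type} [MeasurableSpace Ω] (μ : Measure Ω) (A : Set Ω) : RO (Pos μ) :=
  if h : MeasurableSet A ∧ μ A ≠ 0 then RO.e ⟨A, h.1, h.2⟩ else ⊥

/-- The complete Boolean algebra `𝔹` is the algebra of measurable sets modulo null sets, via `e`. -/
structure MAlg {Ω : Type} [MeasurableSpace Ω] (μ : Measure Ω) {𝔹 : Type}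
    [CompleteBooleanAlgebra 𝔹] (e : Set Ω → 𝔹) : Prop where
  le_iff : ∀ A B, MeasurableSet A → MeasurableSet B → (e A ≤ e B ↔ μ (A \ B) = 0)
  compl : ∀ A, MeasurableSet A → e Aᶜ = (e A)ᶜ
  iUnion : ∀ A : ℕ → Set Ω, (∀ n, MeasurableSet (A n)) → e (⋃ n, A n) = ⨆ n, e (A n)
  surj : ∀ b, ∃ A, MeasurableSet A ∧ e A = b

/-- Module A1. -/
def StMA : Prop := ∀ (Ω : Type) [MeasurableSpace Ω] (μ : Measure Ω) [IsFiniteMeasure μ],
  MAlg μ (eh μ)

/-- Random sequences of nodes. -/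
def CM {Ω : Type} [MeasurableSpace Ω] (c : Ω → ℕ → List Bool) : Prop :=
  ∀ j σ, MeasurableSet {ω | c ω j = σ}

/-- Module A2 (mixing: one random sequence instead of a supremum over random sequences). -/
def StMix : Prop := ∀ (Ω : Type) [MeasurableSpace Ω] (μ : Measure Ω) [IsFiniteMeasure μ]
  (𝔹 : Type) [CompleteBooleanAlgebra 𝔹] (e : Set Ω → 𝔹), MAlg μ e →
  ∀ B : (Ω → ℕ → List Bool) → 𝔹,
  (∀ c c', CM c → CM c' → ∀ A, MeasurableSet A → (∀ ω ∈ A, c ω = c' ω) → e A ⊓ B c ≤ B c') →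
  ∀ b, b ≤ (⨆ c : {c : Ω → ℕ → List Bool // CM c}, B c.1) → ∃ c, CM c ∧ b ≤ B c

/-! ### The product space -/

/-- Index set of the random reals. -/
abbrev I : Type := Set ℕ ⊕ Set (Set ℕ)

/-- The product space. -/
abbrev Om : Type := I → unitInterval

/-- The product measure. -/
noncomputable def mu : Measure Om := Measure.infinitePi fun _ => volume

instance : IsProbabilityMeasure mu := by
  unfold mu
  infer_instance

/-- The set `A` depends only on the coordinates in `J`. -/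
def DepOn (A : Set Om) (J : Set I) : Prop :=
  ∀ ω ω' : Om, (∀ i ∈ J, ω i = ω' i) → (ω ∈ A ↔ ω' ∈ A)

/-- Module A3 (countable supports). -/
def StSupp : Prop :=
  ∀ A : Set Om, MeasurableSet A → ∃ J : Set I, J.Countable ∧ DepOn A J

/-- Module A4 (Fubini for one coordinate). -/
def StFub : Prop := ∀ (β : I) (D : Set (Om × unitInterval)), MeasurableSet D →
  (∀ t, DepOn {ω | (ω, t) ∈ D} {β}ᶜ) →
  mu {ω | (ω, ω β) ∈ D} = ∫⁻ ω, volume {t | (ω, t) ∈ D} ∂mu

/-- `F` is a quantile map: `F m t` has the distribution `m` for uniform `t`. -/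
def IsQ (F : (List Bool → ℝ) → unitInterval → Set ℕ) : Prop :=
  (∀ σ, MeasurableSet {p : (List Bool → ℝ) × unitInterval | IsInit σ (F p.1 p.2)}) ∧
  ∀ m, IsMeas m → ∀ σ, volume {t | IsInit σ (F m t)} = ENNReal.ofReal (m σ)

/-- Module A5 (quantile map: a random real with a given distribution). -/
def StQ : Prop := ∃ F : (List Bool → ℝ) → unitInterval → Set ℕ, IsQ F

/-! ### The main Boolean lemma -/

/-- Random reals. -/
def SR (r : Om → Set ℕ) : Prop := ∀ n, MeasurableSet {ω | n ∈ r ω}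

/-- Random measures. -/
def MM (m : Om → List Bool → ℝ) : Prop :=
  (∀ σ, Measurable fun ω => m ω σ) ∧ ∀ ω, IsMeas (m ω)

section

variable {𝔹 : Type} [CompleteBooleanAlgebra 𝔹] (e : Set Om → 𝔹)

/-- The event: the sum of the measures of the basic clopen sets is at most `2^(-i)`. -/
noncomputable def evSum (m : Om → List Bool → ℝ) (c : Om → ℕ → List Bool) (i : ℕ) : Set Om :=
  {ω | ∑' j, ENNReal.ofReal (m ω (c ω j)) ≤ ENNReal.ofReal ((1 / 2) ^ i)}

/-- The event: `s + r` is covered. -/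
def evCov (c : Om → ℕ → List Bool) (s r : Om → Set ℕ) : Set Om :=
  {ω | ∃ j, IsInit (c ω j) (symmDiff (s ω) (r ω))}

/-- The value of: `c` is a cover of `S + r` with sum of the measures at most `2^(-i)`; here `θ s`
is the value of `s ∈ S`. -/
noncomputable def inner (θ : (Om → Set ℕ) → 𝔹) (m : Om → List Bool → ℝ) (r : Om → Set ℕ) (i : ℕ)
    (c : Om → ℕ → List Bool) : 𝔹 :=
  e (evSum m c i) ⊓ ⨅ s : {s : Om → Set ℕ // SR s}, (θ s.1 ⇨ e (evCov c s.1 r))

/-- The value of: all translates of `S` have outer measure `0`. -/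
noncomputable def bN (θ : (Om → Set ℕ) → 𝔹) (m : Om → List Bool → ℝ) : 𝔹 :=
  ⨅ r : {r : Om → Set ℕ // SR r}, ⨅ i : ℕ, ⨆ c : {c : Om → ℕ → List Bool // CM c},
    inner e θ m r.1 i c.1

end

/-- Module A6 (the random real of a new coordinate is not covered). -/
def StNull : Prop := ∀ F, IsQ F → ∀ m, MM m → ∀ β : I,
  (∀ σ q, DepOn {ω | m ω σ < q} {β}ᶜ) → ∀ c, CM c → (∀ j σ, DepOn {ω | c ω j = σ} {β}ᶜ) →
  ∀ i : ℕ, mu (evSum m c i ∩ {ω | ∃ j, IsInit (c ω j) (F (m ω) (ω β))}) ≤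
    ENNReal.ofReal ((1 / 2) ^ i)

/-- Module A7 (main Boolean lemma). -/
def StE : Prop := ∀ (𝔹 : Type) [CompleteBooleanAlgebra 𝔹] (e : Set Om → 𝔹), MAlg mu e →
  ∀ θ : (Om → Set ℕ) → 𝔹,
  (∀ s s', SR s → SR s' → e {ω | s ω = s' ω} ⊓ θ s ≤ θ s') →
  ∀ m m', MM m → MM m' → bN e θ m ⊓ bN e (fun s => (θ s)ᶜ) m' = ⊥

end RM

end SymExt
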