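import Pool.Agent.Lib.MP_694cb9_lc.SName
import Pool.Agent.Lib.MP_70f607_gt.Gen1
import Pool.Agent.Lib.MP_8b9ec4_lc.RM.Alg

/-!
# Names in the random model, and the statements of the semantic modules
-/

namespace SymExt

namespace RM

open Name MeasureTheory

/-- The Boolean algebra. -/
abbrev B : Type := RO (Pos mu)

/-- Measurable sets as elements of the Boolean algebra. -/
noncomputable def ev (A : Set Om) : B := eh mu A

/-- The name of a random real. -/
noncomputable def rN (r : Om → Set ℕ) : Name B := Name.mk ℕ (fun n => natN n) fun n => ev {ω | n ∈ r ω}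

open Classical in
/-- A measurable set that represents an element of the algebra. -/
noncomputable def rep (b : B) : Set Om :=
  if h : ∃ A, MeasurableSet A ∧ ev A = b then h.choose else ∅

/-- The random real of a name. -/
noncomputable def rOf (ρ : Name B) : Om → Set ℕ := fun ω => {n | ω ∈ rep (bmem (natN n) ρ)}

/-- The event: `(σ, k)` belongs to the set named by `γ`. -/
noncomputable def AM (γ : Name B) (σ : List Bool) (k : ℕ) : Set Om :=
  rep (bmem (opN (nodeN σ) (natN k)) γ)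

/-- The event: the `j`-th value of the sequence named by `γ` is `σ`. -/
noncomputable def AC (γ : Name B) (j : ℕ) (σ : List Bool) : Set Om :=
  rep (bmem (opN (natN j) (nodeN σ)) γ)

open Classical in
/-- The random measure of a name (where the name does not name a measure: the uniform one). -/
noncomputable def mOf (γ : Name B) : Om → List Bool → ℝ := fun ω =>
  if h : ∃ m : List Bool → ℝ, IsMeas m ∧ ∀ σ k, ω ∈ AM γ σ k ↔ m σ < rat k then h.choose
  else fun σ => (1 / 2) ^ σ.length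

/-- The random sequence of nodes of a name. -/
noncomputable def cOf (γ : Name B) : Om → ℕ → List Bool := fun ω j =>
  ((Encodable.decode (sInf {n | ∃ σ : List Bool, Encodable.encode σ = n ∧ ω ∈ AC γ j σ}) :
    Option (List Bool)).getD [])

open Classical in
/-- The events where the name `γ` does not name a measure. -/
noncomputable def DM (γ : Name B) : ℕ × List Bool × ℕ × ℕ × ℕ → Set Om
  | (0, σ, k, k', _) => if rat k ≤ rat k' then AM γ σ k \ AM γ σ k' else ∅
  | (1, σ, k, _, _) => AM γ σ k \ ⋃ k' : {k' // rat k' < rat k}, AM γ σ k'.1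
  | (2, σ, _, _, _) => ⋂ k, (AM γ σ k)ᶜ
  | (3, _, k, _, _) => if 1 < rat k then (AM γ [] k)ᶜ else AM γ [] k
  | (4, σ, k, _, _) => AM γ σ k \ ⋃ p : {p : ℕ × ℕ // rat p.1 + rat p.2 ≤ rat k},
      AM γ (false :: σ) p.1.1 ∩ AM γ (true :: σ) p.1.2
  | (5, σ, k, k1, k2) => if rat k1 + rat k2 ≤ rat k then
      (AM γ (false :: σ) k1 ∩ AM γ (true :: σ) k2) \ AM γ σ k else ∅
  | _ => ∅

open Classical in
/-- The events where the name `γ` does not name a sequence of nodes. -/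
noncomputable def DC (γ : Name B) : ℕ × List Bool × List Bool → Set Om
  | (j, σ, σ') => if σ = σ' then ⋂ τ, (AC γ j τ)ᶜ else AC γ j σ ∩ AC γ j σ'

/-- The value of `s ∈ S` (`b = true`) or `s ∉ S` (`b = false`), where `ς` names `S`. -/
noncomputable def th (b : Bool) (ς : Name B) (s : Om → Set ℕ) : B :=
  if b then bmem (rN s) ς else (bmem (rN s) ς)ᶜ

/-- The events for `evSum`: the first values of the sequence are the nodes of `L`, and their
measures are at least the rational numbers of `L`. -/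
def evL (m : Om → List Bool → ℝ) (c : Om → ℕ → List Bool) (L : List (List Bool × ℕ)) : Set Om :=
  {ω | ∀ (j : ℕ) (p : List Bool × ℕ), L[j]? = some p → c ω j = p.1 ∧ ¬ m ω p.1 < rat p.2}

/-- Module B1 (names of measures). -/
def StB1 : Prop := MAlg mu ev → ∀ γ : Name B, MM (mOf γ) ∧
  MeasurableSet (⋃ q, DM γ q) ∧ (∀ q, MeasurableSet (DM γ q)) ∧
  ∀ ω ∉ ⋃ q, DM γ q, ∀ σ k, ω ∈ AM γ σ k ↔ mOf γ ω σ < rat k

/-- Module B1 (names of sequences of nodes, sums). -/
def StB2 : Prop := MAlg mu ev → (∀ γ : Name B, CM (cOf γ) ∧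
  MeasurableSet (⋃ q, DC γ q) ∧ (∀ q, MeasurableSet (DC γ q)) ∧
  ∀ ω ∉ ⋃ q, DC γ q, ∀ j σ, ω ∈ AC γ j σ ↔ cOf γ ω j = σ) ∧
  ∀ m c i, MM m → CM c → (evSum m c i)ᶜ =
    ⋃ L : {L : List (List Bool × ℕ) // (1 / 2 : ℝ) ^ i < (L.map fun p => rat p.2).sum}, evL m c L.1

/-- The properties of the generic pair `(C, U)` that are used. -/
structure GR (C : Set (Name B)) (U : Set B) : Prop where
  unop : ∀ x y : Name B, opN x y ∈ C → x ∈ C ∧ y ∈ C
  node : ∀ σ, nodeN σ ∈ C
  real : ∀ ρ ∈ C, rN (rOf ρ) ∈ C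
  goodM : ∀ γ ∈ C, (ev (⋃ q, DM γ q))ᶜ ∈ U ∨ ∃ q, ev (DM γ q) ∈ U
  goodC : ∀ γ ∈ C, (ev (⋃ q, DC γ q))ᶜ ∈ U ∨ ∃ q, ev (DC γ q) ∈ U
  sum : ∀ γ ∈ C, ∀ γc ∈ C, ∀ i : ℕ, ev (evSum (mOf γ) (cOf γc) i) ∉ U →
    ∃ L : List (List Bool × ℕ), (1 / 2 : ℝ) ^ i < (L.map fun p => rat p.2).sum ∧
      ev (evL (mOf γ) (cOf γc) L) ∈ U
  cov : ∀ (b : Bool), ∀ ς ∈ C, ∀ ρ ∈ C, ∀ γc ∈ C,
    (⨅ s : {s : Om → Set ℕ // SR s}, (th b ς s.1 ⇨ ev (evCov (cOf γc) s.1 (rOf ρ)))) ∉ U →
    ∃ s, SR s ∧ rN s ∈ C ∧ th b ς s ∈ U ∧ ev (evCov (cOf γc) s (rOf ρ)) ∉ U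
  fail : ∀ (b : Bool), ∀ ς ∈ C, ∀ γ ∈ C, bN ev (th b ς) (mOf γ) ∉ U → ∃ (r : Om → Set ℕ) (i : ℕ),
    SR r ∧ rN r ∈ C ∧
    (⨆ c : {c : Om → ℕ → List Bool // CM c}, inner ev (th b ς) (mOf γ) r i c.1) ∉ U

/-- Module M1: the generic pair. -/
def StGR : Prop := MAlg mu ev → StB1 → StB2 →
  ∃ (C : Set (Name B)) (U : Set B), Good (triv B) C U ∧ GR C U ∧
  (∀ x ∈ C, acN x ∈ C) ∧ ∀ x ∈ C, ∀ y ∈ C, acE x y ∈ C

/-- The real in the model given by a random real. -/
def star (U : Set B) (r : Om → Set ℕ) : Set ℕ := {n | ev {ω | n ∈ r ω} ∈ U}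

/-- Basic facts about values in the model. -/
structure VR (C : Set (Name B)) (U : Set B) : Prop where
  /-- the values of names of random reals -/
  rval : ∀ r, SR r → rN r ∈ C → val C U (rN r) = realSet (star U r)
  /-- every subset of `ω` in the model is the value of the name of a random real -/
  rex : ∀ x : Set ℕ, realSet x ∈ model (triv B) C U → ∃ r, SR r ∧ rN r ∈ C ∧ star U r = x
  /-- the random real of a name is random -/
  rsr : ∀ ρ : Name B, SR (rOf ρ)
  /-- the random real of the name of a random real is almost surely the same -/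
  rr : ∀ r, SR r → mu {ω | rOf (rN r) ω ≠ r ω} = 0
  /-- initial segments of symmetric differences -/
  ini : ∀ s r, SR s → SR r → rN s ∈ C → rN r ∈ C → ∀ σ : List Bool,
    (ev {ω | IsInit σ (symmDiff (s ω) (r ω))} ∈ U ↔ IsInit σ (symmDiff (star U s) (star U r)))
  /-- measures -/
  meas : ∀ γ ∈ C, ∀ m : List Bool → ℝ, IsMeas m →
    (∀ z, z ∈ val C U γ ↔ ∃ σ k, m σ < rat k ∧ z = ZFSet.pair (nodeSet σ) (natSet k)) →
    ∀ σ k, ev {ω | mOf γ ω σ < rat k} ∈ U ↔ m σ < rat k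
  /-- sequences of nodes -/
  nodes : ∀ γ ∈ C, ∀ c : ℕ → List Bool,
    (∀ z, z ∈ val C U γ ↔ ∃ j, z = ZFSet.pair (natSet j) (nodeSet (c j))) →
    ∀ j σ, ev {ω | cOf γ ω j = σ} ∈ U ↔ c j = σ

/-- Module S2 (locality). -/
def StLoc : Prop := MAlg mu ev → ∀ (ς : Name B) (s s' : Om → Set ℕ), SR s → SR s' →
  ev {ω | s ω = s' ω} ⊓ bmem (rN s) ς ≤ bmem (rN s') ς

/-- Module S0. -/
def StVR : Prop := MAlg mu ev → StB1 → StB2 → ∀ (C : Set (Name B)) (U : Set B),
  Good (triv B) C U → GR C U → VR C U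

/-- Module S1: a naively Haar null set in the model (or its complement) has Boolean value in `U`. -/
def StSem : Prop := MAlg mu ev → StB1 → StB2 → (∀ x : Name B, (triv B).HS x) →
  ∀ (C : Set (Name B)) (U : Set B), Good (triv B) C U → GR C U → VR C U →
  ∀ (b : Bool), ∀ ς ∈ C, NaivelyHaarNull (model (triv B) C U)
    {r | realSet r ∈ model (triv B) C U ∧ (b = true ↔ realSet r ∈ val C U ς)} →
  ∃ γ ∈ C, bN ev (th b ς) (mOf γ) ∈ U

end RM

end SymExt
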