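import Pool.Agent.Lib.MP_70f607_gt.G1
import Pool.Agent.Lib.MP_8b9ec4_lc.RM.Names
import Pool.Agent.Lib.MP_8b9ec4_lc.RM.A1

/-!
# Assembly
-/

namespace SymExt

namespace RM

open Name MeasureTheory

theorem malg_ev : MAlg mu ev := stMA Om mu

theorem main_of (hE : StE) (h1 : StB1) (h2 : StB2) (hG : StGR) (hV : StVR) (hS : StSem)
    (hL : StLoc) : ∃ N : Set ZFSet.{0}, N.Countable ∧ IsZFC N ∧ NoPartition N := by
  obtain ⟨C, U, hg, hr, ha1, ha2⟩ := hG malg_ev h1 h2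
  obtain ⟨hs, hac⟩ := stAC.{0} B
  have hv := hV malg_ev h1 h2 C U hg hr
  refine ⟨model (triv B) C U, model_countable hg, hac C U hg ha1 ha2 hr.unop, ?_⟩
  rintro S ⟨ς, hς, _, rfl⟩ ⟨hp, hq⟩
  have e1 : {r : Set ℕ | realSet r ∈ model (triv B) C U ∧ realSet r ∈ val C U ς} =
      {r | realSet r ∈ model (triv B) C U ∧ ((true : Bool) = true ↔ realSet r ∈ val C U ς)} := by
    ext r
    simp
  have e2 : {r : Set ℕ | realSet r ∈ model (triv B) C U ∧ realSet r ∉ val C U ς} =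
      {r | realSet r ∈ model (triv B) C U ∧ ((false : Bool) = true ↔ realSet r ∈ val C U ς)} := by
    ext r
    simp
  rw [e1] at hp
  rw [e2] at hq
  obtain ⟨γ, _, hγ⟩ := hS malg_ev h1 h2 hs C U hg hr hv true ς hς hp
  obtain ⟨γ', _, hγ'⟩ := hS malg_ev h1 h2 hs C U hg hr hv false ς hς hq
  have e3 : th true ς = fun s => bmem (rN s) ς := by
    funext s
    simp [th]
  have e4 : th false ς = fun s => (bmem (rN s) ς)ᶜ := by
    funext s
    simp [th]
  rw [e3] at hγ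
  rw [e4] at hγ'
  have key := hE B ev malg_ev (fun s => bmem (rN s) ς)
    (fun s s' hs hs' => hL malg_ev ς s s' hs hs') (mOf γ) (mOf γ') (h1 malg_ev γ).1
    (h1 malg_ev γ').1
  apply hg.bot
  rw [← key]
  exact hg.inf _ hγ _ hγ'

end RM

end SymExt
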