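import Pool.Agent.Lib.MP_694cb9_lc.Model
import Pool.Agent.Lib.MP_8b9ec4_lc.RM.Names

set_option autoImplicit false

/-!
# Module M1: the generic pair
-/

namespace SymExt

namespace RM

open Name MeasureTheory

namespace M1

theorem opN_inj {x y x' y' : Name B} (h : opN x y = opN x' y') : x = x' ∧ y = y' := by
  have key : ∀ {a b a' b' : Name B}, pairN a b = pairN a' b' → a = a' ∧ b = b' := by
    intro a b a' b' h
    have h1 := (Name.mk.inj h).2.1
    have h2 := eq_of_heq h1
    exact ⟨congrFun h2 ⟨true⟩, congrFun h2 ⟨false⟩⟩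
  obtain ⟨h1, h2⟩ := key h
  exact ⟨(key h1).1, (key h2).2⟩

open Classical in
/-- Components of an ordered pair. -/
noncomputable def unop (c : Bool) (x : Name B) : Name B :=
  if h : ∃ p : Name B × Name B, x = opN p.1 p.2 then cond c h.choose.1 h.choose.2 else empN

theorem unop_opN (c : Bool) (x y : Name B) : unop c (opN x y) = cond c x y := by
  have h : ∃ p : Name B × Name B, opN x y = opN p.1 p.2 := ⟨(x, y), rfl⟩
  rw [unop, dif_pos h]
  obtain ⟨h1, h2⟩ := opN_inj h.choose_spec
  cases c
  · exact h2.symm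
  · exact h1.symm

/-- The additional operations. -/
noncomputable def opM : ℕ × List Bool → List (Name B) → Name B
  | (0, _), l => unop true (l.getD 0 empN)
  | (1, _), l => unop false (l.getD 0 empN)
  | (2, σ), _ => nodeN σ
  | (3, _), l => rN (rOf (l.getD 0 empN))
  | (4, _), l => acN (l.getD 0 empN)
  | (5, _), l => acE (l.getD 0 empN) (l.getD 1 empN)
  | (_, _), _ => empN

/-- The additional requirements. -/
noncomputable def reqM (r : ℕ × ℕ × Bool) (l : List (Name B)) : Set (B × List (Name B)) :=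
  let i := r.2.1
  let b := r.2.2
  let x := l.getD 0 empN
  let y := l.getD 1 empN
  let z := l.getD 2 empN
  match r.1 with
  | 0 => fam (fun q => ev (DM x q)) fun _ => []
  | 1 => fam (fun q => ev (DC x q)) fun _ => []
  | 2 => fam (fun L : {L : List (List Bool × ℕ) //
      (1 / 2 : ℝ) ^ i < (L.map fun p => rat p.2).sum} => ev (evL (mOf x) (cOf y) L.1)) fun _ => []
  | 3 => fam (fun s : {s : Om → Set ℕ // SR s} =>
      th b x s.1 ⊓ (ev (evCov (cOf z) s.1 (rOf y)))ᶜ) fun s => [rN s.1]
  | 4 => fam (fun t : {r : Om → Set ℕ // SR r} × ℕ =>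
      (⨆ c : {c : Om → ℕ → List Bool // CM c}, inner ev (th b x) (mOf y) t.1.1 t.2 c.1)ᶜ)
      fun t => [rN t.1.1]
  | _ => ∅

theorem ev_empty (hM : MAlg mu ev) : ev ∅ = ⊥ := by
  obtain ⟨A, hA, h⟩ := hM.surj ⊥
  refine le_bot_iff.1 ?_
  rw [← h, hM.le_iff ∅ A MeasurableSet.empty hA, Set.empty_sdiff, measure_empty]

theorem top_ne (hM : MAlg mu ev) : (⊤ : B) ≠ ⊥ := by
  intro h
  have h1 : ev Set.univ ≤ ev ∅ := by
    rw [ev_empty hM, ← h]
    exact le_top
  rw [hM.le_iff _ _ MeasurableSet.univ MeasurableSet.empty, Set.sdiff_empty] at h1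
  simp at h1

theorem ev_iUnion (hM : MAlg mu ev) {ι : Type} [Countable ι] (A : ι → Set Om)
    (hA : ∀ i, MeasurableSet (A i)) : ev (⋃ i, A i) = ⨆ i, ev (A i) := by
  rcases isEmpty_or_nonempty ι with hι | hι
  · rw [Set.iUnion_of_empty, iSup_of_empty, ev_empty hM]
  · obtain ⟨f, hf⟩ := exists_surjective_nat ι
    rw [← hf.iUnion_comp A, ← hf.iSup_comp (g := fun i => ev (A i))]
    exact hM.iUnion (fun n => A (f n)) fun n => hA _

theorem evL_meas {m : Om → List Bool → ℝ} {c : Om → ℕ → List Bool} (hm : MM m) (hc : CM c)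
    (L : List (List Bool × ℕ)) : MeasurableSet (evL m c L) := by
  have e : evL m c L = ⋂ (j : ℕ), ⋂ (p : List Bool × ℕ), ⋂ (_ : L[j]? = some p),
      ({ω | c ω j = p.1} ∩ {ω | m ω p.1 < rat p.2}ᶜ) := by
    ext ω
    simp only [evL, Set.mem_iInter, Set.mem_inter_iff, Set.mem_compl_iff, Set.mem_ofPred_eq]
  rw [e]
  refine MeasurableSet.iInter fun j => MeasurableSet.iInter fun p => MeasurableSet.iInter fun _ => ?_
  exact (hc j p.1).inter (measurableSet_lt (hm.1 p.1) measurable_const).compl

end M1

open M1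

/-- Module M1: the generic pair. -/
theorem stGR : StGR := by
  intro hM hB1 hB2
  obtain ⟨C, U, h, _, hop, hreq⟩ := exists_good (triv B) opM reqM ⊤ (top_ne hM)
  have hB1 := hB1 hM
  obtain ⟨hB2, hB3⟩ := hB2 hM
  have hmem : ∀ {a : Name B}, a ∈ C → ∀ x ∈ [a], x ∈ C := by
    intro a ha x hx
    rw [List.mem_singleton] at hx
    rwa [hx]
  have hmem2 : ∀ {a b : Name B}, a ∈ C → b ∈ C → ∀ x ∈ [a, b], x ∈ C := by
    intro a b ha hb x hx
    simp only [List.mem_cons, List.not_mem_nil, or_false] at hx
    rcases hx with rfl | rfl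
    · exact ha
    · exact hb
  have hmem3 : ∀ {a b c : Name B}, a ∈ C → b ∈ C → c ∈ C → ∀ x ∈ [a, b, c], x ∈ C := by
    intro a b c ha hb hc x hx
    simp only [List.mem_cons, List.not_mem_nil, or_false] at hx
    rcases hx with rfl | rfl | rfl
    · exact ha
    · exact hb
    · exact hc
  have hnil : ∀ x ∈ ([] : List (Name B)), x ∈ C := by simp
  refine ⟨C, U, h, ?_, fun x hx => hop (4, []) [x] (hmem hx),
    fun x hx y hy => hop (5, []) [x, y] (hmem2 hx hy)⟩
  exact
    { unop := fun x y hxy => by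
        have e1 := hop (0, []) [opN x y] (hmem hxy)
        have e2 := hop (1, []) [opN x y] (hmem hxy)
        change unop true (opN x y) ∈ C at e1
        change unop false (opN x y) ∈ C at e2
        rw [unop_opN] at e1 e2
        exact ⟨e1, e2⟩
      node := fun σ => hop (2, σ) [] hnil
      real := fun ρ hρ => hop (3, []) [ρ] (hmem hρ)
      goodM := fun γ hγ => by
        have hr := hreq (0, 0, true) [γ] (hmem hγ)
        rcases hr.dec with h1 | h1
        · right
          obtain ⟨q, h3, -⟩ := hr.wit h1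
          exact ⟨q, h3⟩
        · left
          rw [ev_iUnion hM _ (hB1 γ).2.2.1]
          exact h1
      goodC := fun γ hγ => by
        have hr := hreq (1, 0, true) [γ] (hmem hγ)
        rcases hr.dec with h1 | h1
        · right
          obtain ⟨q, h3, -⟩ := hr.wit h1
          exact ⟨q, h3⟩
        · left
          rw [ev_iUnion hM _ (hB2 γ).2.2.1]
          exact h1
      sum := fun γ hγ γc hγc i hin => by
        have hm := (hB1 γ).1
        have hc := (hB2 γc).1
        have hr := hreq (2, i, true) [γ, γc] (hmem2 hγ hγc)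
        rcases hr.dec with h1 | h1
        · obtain ⟨L, h3, -⟩ := hr.wit h1
          exact ⟨L.1, L.2, h3⟩
        · exfalso
          refine hin ?_
          have e1 := hB3 (mOf γ) (cOf γc) i hm hc
          have e2 := ev_iUnion hM (fun L : {L : List (List Bool × ℕ) //
            (1 / 2 : ℝ) ^ i < (L.map fun p => rat p.2).sum} => evL (mOf γ) (cOf γc) L.1)
            fun L => evL_meas hm hc L.1
          have e3 : MeasurableSet (evSum (mOf γ) (cOf γc) i)ᶜ := by
            rw [e1]
            exact MeasurableSet.iUnion fun L => evL_meas hm hc L.1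
          rw [← e1, hM.compl _ e3.of_compl] at e2
          change (⨆ L : {L : List (List Bool × ℕ) //
            (1 / 2 : ℝ) ^ i < (L.map fun p => rat p.2).sum}, ev (evL (mOf γ) (cOf γc) L.1))ᶜ ∈ U
            at h1
          rwa [← e2, compl_compl] at h1
      cov := fun b ς hς ρ hρ γc hγc hin => by
        have hr := hreq (3, 0, b) [ς, ρ, γc] (hmem3 hς hρ hγc)
        rcases hr.dec with h1 | h1
        · obtain ⟨s, h3, h4⟩ := hr.wit h1
          change th b ς s.1 ⊓ (ev (evCov (cOf γc) s.1 (rOf ρ)))ᶜ ∈ U at h3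
          rw [h.inf_iff] at h3
          exact ⟨s.1, s.2, h4 _ (by simp), h3.1, fun h5 => h.not_compl h5 h3.2⟩
        · exfalso
          refine hin ?_
          change (⨆ s : {s : Om → Set ℕ // SR s},
            th b ς s.1 ⊓ (ev (evCov (cOf γc) s.1 (rOf ρ)))ᶜ)ᶜ ∈ U at h1
          rw [compl_iSup] at h1
          simp only [compl_inf, compl_compl] at h1
          simp only [himp_eq]
          simp only [sup_comm] at h1 ⊢
          exact h1
      fail := fun b ς hς γ hγ hin => by
        have hr := hreq (4, 0, b) [ς, γ] (hmem2 hς hγ)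
        rcases hr.dec with h1 | h1
        · obtain ⟨t, h3, h4⟩ := hr.wit h1
          exact ⟨t.1.1, t.2, t.1.2, h4 _ (by simp), fun h5 => h.not_compl h5 h3⟩
        · exfalso
          refine hin ?_
          change (⨆ t : {r : Om → Set ℕ // SR r} × ℕ,
            (⨆ c : {c : Om → ℕ → List Bool // CM c},
              inner ev (th b ς) (mOf γ) t.1.1 t.2 c.1)ᶜ)ᶜ ∈ U at h1
          rw [compl_iSup] at h1
          simp only [compl_compl] at h1
          rw [iInf_prod] at h1
          exact h1 }

end RM

end SymExt
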