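import Pool.Agent.Lib.MP_8b9ec4_lc.RM.Names

/-!
# Names of measures
-/

namespace SymExt

namespace RM

open Name MeasureTheory

namespace N1

theorem rat_nonneg (k : ℕ) : 0 ≤ rat k := by
  unfold rat
  positivity

/-- density of the numbers `rat k` -/
theorem exists_rat {x y : ℝ} (hx : 0 ≤ x) (h : x < y) : ∃ k, x < rat k ∧ rat k < y := by
  obtain ⟨q, hq1, hq2⟩ := exists_rat_btwn h
  have hq0 : 0 < q := by
    have h1 : (0 : ℝ) < q := lt_of_le_of_lt hx hq1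
    exact_mod_cast h1
  have hnum : 0 < q.num := Rat.num_pos.2 hq0
  have hden : 0 < q.den := q.den_pos
  refine ⟨Nat.pair q.num.toNat (q.den - 1), ?_⟩
  have h2 : rat (Nat.pair q.num.toNat (q.den - 1)) = (q : ℝ) := by
    unfold rat
    rw [Nat.unpair_pair]
    have h3 : ((q.num.toNat : ℕ) : ℝ) = (q.num : ℝ) := by
      have h4 : ((q.num.toNat : ℕ) : ℤ) = q.num := Int.toNat_of_nonneg hnum.le
      exact_mod_cast congrArg (Int.cast : ℤ → ℝ) h4
    have h5 : (((q.den - 1 : ℕ)) : ℝ) + 1 = (q.den : ℝ) := by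
      have h6 : q.den - 1 + 1 = q.den := Nat.sub_add_cancel hden
      exact_mod_cast h6
    show ((q.num.toNat : ℕ) : ℝ) / (((q.den - 1 : ℕ) : ℝ) + 1) = (q : ℝ)
    rw [h3, h5]
    exact (Rat.cast_def q).symm
  rw [h2]
  exact ⟨hq1, hq2⟩

theorem eq_of_rat {x y : ℝ} (hx : 0 ≤ x) (hy : 0 ≤ y) (h : ∀ k, x < rat k ↔ y < rat k) :
    x = y := by
  rcases lt_trichotomy x y with h1 | h1 | h1
  · obtain ⟨k, hk1, hk2⟩ := exists_rat hx h1
    exact absurd ((h k).1 hk1) (not_lt.2 hk2.le)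
  · exact h1
  · obtain ⟨k, hk1, hk2⟩ := exists_rat hy h1
    exact absurd ((h k).2 hk1) (not_lt.2 hk2.le)

theorem exists_rat_add {x y z : ℝ} (hx : 0 ≤ x) (hy : 0 ≤ y) (h : x + y < z) :
    ∃ k l, x < rat k ∧ y < rat l ∧ rat k + rat l ≤ z := by
  have h1 : x < x + (z - (x + y)) / 2 := by linarith
  have h2 : y < y + (z - (x + y)) / 2 := by linarith
  obtain ⟨k, hk1, hk2⟩ := exists_rat hx h1
  obtain ⟨l, hl1, hl2⟩ := exists_rat hy h2
  exact ⟨k, l, hk1, hl1, by linarith⟩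

theorem isMeas_unif : IsMeas fun σ => (1 / 2 : ℝ) ^ σ.length where
  one := by simp
  nonneg σ := by positivity
  add σ := by
    rw [List.length_cons, List.length_cons, pow_succ]
    ring

variable (hA : MAlg mu ev) (γ : Name B)

include hA in
theorem meas_rep (b : B) : MeasurableSet (rep b) := by
  unfold rep
  rw [dif_pos (hA.surj b)]
  exact (hA.surj b).choose_spec.1

include hA in
theorem meas_AM (σ : List Bool) (k : ℕ) : MeasurableSet (AM γ σ k) := meas_rep hA _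

include hA in
theorem meas_DM (q : ℕ × List Bool × ℕ × ℕ × ℕ) : MeasurableSet (DM γ q) := by
  classical
  have hm := meas_AM hA γ
  unfold DM
  split
  · split_ifs
    · exact (hm _ _).diff (hm _ _)
    · exact MeasurableSet.empty
  · exact (hm _ _).diff (MeasurableSet.iUnion fun _ => hm _ _)
  · exact MeasurableSet.iInter fun _ => (hm _ _).compl
  · split_ifs
    · exact (hm _ _).compl
    · exact hm _ _
  · exact (hm _ _).diff (MeasurableSet.iUnion fun _ => (hm _ _).inter (hm _ _))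
  · split_ifs
    · exact ((hm _ _).inter (hm _ _)).diff (hm _ _)
    · exact MeasurableSet.empty
  · exact MeasurableSet.empty

open Classical in
theorem DM0 (σ : List Bool) (k k' j : ℕ) :
    DM γ (0, σ, k, k', j) = if rat k ≤ rat k' then AM γ σ k \ AM γ σ k' else ∅ := rfl

open Classical in
theorem DM3 (σ : List Bool) (k i j : ℕ) :
    DM γ (3, σ, k, i, j) = if 1 < rat k then (AM γ [] k)ᶜ else AM γ [] k := rfl

open Classical in
theorem DM5 (σ : List Bool) (k k1 k2 : ℕ) :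
    DM γ (5, σ, k, k1, k2) = if rat k1 + rat k2 ≤ rat k then
      (AM γ (false :: σ) k1 ∩ AM γ (true :: σ) k2) \ AM γ σ k else ∅ := rfl

/-- `m` is the measure named by `γ` at `ω` -/
def Is (ω : Om) (m : List Bool → ℝ) : Prop :=
  IsMeas m ∧ ∀ σ k, ω ∈ AM γ σ k ↔ m σ < rat k

theorem exists_of_notMem {ω : Om} (h : ω ∉ ⋃ q, DM γ q) : ∃ m, Is γ ω m := by
  classical
  rw [Set.mem_iUnion] at h
  push Not at h
  have h0 : ∀ σ k k', rat k ≤ rat k' → ω ∈ AM γ σ k → ω ∈ AM γ σ k' := by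
    intro σ k k' hk hm
    by_contra hn
    apply h (0, σ, k, k', 0)
    rw [DM0, if_pos hk]
    exact ⟨hm, hn⟩
  have h1 : ∀ σ k, ω ∈ AM γ σ k → ∃ k', rat k' < rat k ∧ ω ∈ AM γ σ k' := by
    intro σ k hm
    by_contra hn
    apply h (1, σ, k, 0, 0)
    refine ⟨hm, ?_⟩
    rw [Set.mem_iUnion]
    rintro ⟨⟨k', hk'⟩, hm'⟩
    exact hn ⟨k', hk', hm'⟩
  have h2 : ∀ σ, ∃ k, ω ∈ AM γ σ k := by
    intro σ
    by_contra hn
    apply h (2, σ, 0, 0, 0)
    refine Set.mem_iInter.2 fun k hm => hn ⟨k, hm⟩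
  have h3 : ∀ k, ω ∈ AM γ [] k ↔ 1 < rat k := by
    intro k
    have h3' := h (3, [], k, 0, 0)
    rw [DM3] at h3'
    by_cases hk : 1 < rat k
    · rw [if_pos hk] at h3'
      simp only [hk, iff_true]
      by_contra hn
      exact h3' hn
    · rw [if_neg hk] at h3'
      simp only [hk, iff_false]
      exact h3'
  have h4 : ∀ σ k, ω ∈ AM γ σ k → ∃ k1 k2, rat k1 + rat k2 ≤ rat k ∧
      ω ∈ AM γ (false :: σ) k1 ∧ ω ∈ AM γ (true :: σ) k2 := by
    intro σ k hm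
    by_contra hn
    apply h (4, σ, k, 0, 0)
    refine ⟨hm, ?_⟩
    rw [Set.mem_iUnion]
    rintro ⟨⟨p, hp⟩, hm1, hm2⟩
    exact hn ⟨p.1, p.2, hp, hm1, hm2⟩
  have h5 : ∀ σ k k1 k2, rat k1 + rat k2 ≤ rat k → ω ∈ AM γ (false :: σ) k1 →
      ω ∈ AM γ (true :: σ) k2 → ω ∈ AM γ σ k := by
    intro σ k k1 k2 hk hm1 hm2
    by_contra hn
    apply h (5, σ, k, k1, k2)
    rw [DM5, if_pos hk]
    exact ⟨⟨hm1, hm2⟩, hn⟩
  set m : List Bool → ℝ := fun σ => sInf {x | ∃ k, ω ∈ AM γ σ k ∧ x = rat k} with hm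
  have hbdd : ∀ σ, BddBelow {x | ∃ k, ω ∈ AM γ σ k ∧ x = rat k} := by
    intro σ
    refine ⟨0, ?_⟩
    rintro x ⟨k, -, rfl⟩
    exact rat_nonneg k
  have hne : ∀ σ, {x | ∃ k, ω ∈ AM γ σ k ∧ x = rat k}.Nonempty := by
    intro σ
    obtain ⟨k, hk⟩ := h2 σ
    exact ⟨rat k, k, hk, rfl⟩
  have hiff : ∀ σ k, ω ∈ AM γ σ k ↔ m σ < rat k := by
    intro σ k
    constructor
    · intro hk
      obtain ⟨k', hk1, hk2⟩ := h1 σ k hk
      exact lt_of_le_of_lt (csInf_le (hbdd σ) ⟨k', hk2, rfl⟩) hk1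
    · intro hk
      obtain ⟨x, ⟨k', hk1, rfl⟩, hk2⟩ := exists_lt_of_csInf_lt (hne σ) hk
      exact h0 σ k' k hk2.le hk1
  have hnn : ∀ σ, 0 ≤ m σ := by
    intro σ
    refine le_csInf (hne σ) ?_
    rintro x ⟨k, -, rfl⟩
    exact rat_nonneg k
  refine ⟨m, ⟨?_, hnn, ?_⟩, hiff⟩
  · refine eq_of_rat (hnn _) zero_le_one fun k => ?_
    rw [← hiff, h3]
  · intro σ
    refine eq_of_rat (hnn _) (add_nonneg (hnn _) (hnn _)) fun k => ?_
    constructor
    · intro hk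
      obtain ⟨k1, k2, hk0, hk1, hk2⟩ := h4 σ k ((hiff σ k).2 hk)
      have e1 := (hiff _ _).1 hk1
      have e2 := (hiff _ _).1 hk2
      linarith
    · intro hk
      obtain ⟨k1, k2, hk1, hk2, hk0⟩ := exists_rat_add (hnn _) (hnn _) hk
      exact (hiff σ k).1 (h5 σ k k1 k2 hk0 ((hiff _ _).2 hk1) ((hiff _ _).2 hk2))

theorem notMem_of_is {ω : Om} {m : List Bool → ℝ} (hm : Is γ ω m) : ω ∉ ⋃ q, DM γ q := by
  classical
  obtain ⟨h1, h2⟩ := hm
  rw [Set.mem_iUnion]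
  rintro ⟨q, hq⟩
  unfold DM at hq
  split at hq
  · split_ifs at hq with hk
    · exact hq.2 ((h2 _ _).2 (((h2 _ _).1 hq.1).trans_le hk))
    · exact hq
  · obtain ⟨k', hk1, hk2⟩ := exists_rat (h1.nonneg _) ((h2 _ _).1 hq.1)
    exact hq.2 (Set.mem_iUnion.2 ⟨⟨k', hk2⟩, (h2 _ _).2 hk1⟩)
  · rename_i σ _ _ _
    obtain ⟨k, hk1, -⟩ := exists_rat (h1.nonneg σ) (lt_add_one (m σ))
    exact Set.mem_iInter.1 hq k ((h2 _ _).2 hk1)
  · split_ifs at hq with hk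
    · exact hq ((h2 _ _).2 (by rw [h1.one]; exact hk))
    · apply hk
      have h3 := (h2 _ _).1 hq
      rwa [h1.one] at h3
  · have h3 := (h2 _ _).1 hq.1
    rw [h1.add] at h3
    obtain ⟨k1, k2, hk1, hk2, hk0⟩ := exists_rat_add (h1.nonneg _) (h1.nonneg _) h3
    exact hq.2 (Set.mem_iUnion.2 ⟨⟨(k1, k2), hk0⟩, (h2 _ _).2 hk1, (h2 _ _).2 hk2⟩)
  · split_ifs at hq with hk
    · apply hq.2
      rw [h2, h1.add]
      have e1 := (h2 _ _).1 hq.1.1
      have e2 := (h2 _ _).1 hq.1.2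
      linarith
    · exact hq
  · exact hq

theorem mOf_is {ω : Om} (h : ω ∉ ⋃ q, DM γ q) : Is γ ω (mOf γ ω) := by
  have h1 : ∃ m : List Bool → ℝ, IsMeas m ∧ ∀ σ k, ω ∈ AM γ σ k ↔ m σ < rat k :=
    exists_of_notMem γ h
  have h2 : mOf γ ω = h1.choose := by
    unfold mOf
    rw [dif_pos h1]
  rw [h2]
  exact h1.choose_spec

theorem mOf_unif {ω : Om} (h : ω ∈ ⋃ q, DM γ q) : mOf γ ω = fun σ => (1 / 2 : ℝ) ^ σ.length := by
  have h1 : ¬ ∃ m : List Bool → ℝ, IsMeas m ∧ ∀ σ k, ω ∈ AM γ σ k ↔ m σ < rat k := by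
    rintro ⟨m, hm⟩
    exact notMem_of_is γ hm h
  unfold mOf
  rw [dif_neg h1]

theorem mOf_isMeas (ω : Om) : IsMeas (mOf γ ω) := by
  by_cases h : ω ∈ ⋃ q, DM γ q
  · rw [mOf_unif γ h]
    exact isMeas_unif
  · exact (mOf_is γ h).1

include hA in
theorem meas_lt (σ : List Bool) (k : ℕ) : MeasurableSet {ω | mOf γ ω σ < rat k} := by
  have hD : MeasurableSet (⋃ q, DM γ q) := MeasurableSet.iUnion fun q => meas_DM hA γ q
  have h1 : {ω | mOf γ ω σ < rat k} = ((⋃ q, DM γ q)ᶜ ∩ AM γ σ k) ∪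
      ((⋃ q, DM γ q) ∩ {_ω | (1 / 2 : ℝ) ^ σ.length < rat k}) := by
    ext ω
    by_cases h : ω ∈ ⋃ q, DM γ q
    · simp only [Set.mem_ofPred_eq, mOf_unif γ h, Set.mem_union, Set.mem_inter_iff,
        Set.mem_compl_iff, h, not_true_eq_false, false_and, true_and, false_or]
    · simp only [Set.mem_ofPred_eq, Set.mem_union, Set.mem_inter_iff,
        Set.mem_compl_iff, h, not_false_eq_true, false_and, true_and, or_false]
      exact ((mOf_is γ h).2 σ k).symm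
  rw [h1]
  exact (hD.compl.inter (meas_AM hA γ σ k)).union (hD.inter (MeasurableSet.const _))

include hA in
theorem meas_mOf (σ : List Bool) : Measurable fun ω => mOf γ ω σ := by
  refine measurable_of_Iio fun x => ?_
  have h1 : (fun ω => mOf γ ω σ) ⁻¹' Set.Iio x =
      ⋃ k : {k : ℕ // rat k ≤ x}, {ω | mOf γ ω σ < rat k.1} := by
    ext ω
    rw [Set.mem_iUnion]
    constructor
    · intro h
      obtain ⟨k, hk1, hk2⟩ := exists_rat ((mOf_isMeas γ ω).nonneg σ) h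
      exact ⟨⟨k, hk2.le⟩, hk1⟩
    · rintro ⟨⟨k, hk⟩, h⟩
      exact lt_of_lt_of_le h hk
  rw [h1]
  exact MeasurableSet.iUnion fun k => meas_lt hA γ σ k.1

end N1

open N1 in
/-- Module B1 (names of measures). -/
theorem stB1 : StB1 := by
  intro hA γ
  refine ⟨⟨fun σ => meas_mOf hA γ σ, mOf_isMeas γ⟩,
    MeasurableSet.iUnion fun q => meas_DM hA γ q, meas_DM hA γ, ?_⟩
  intro ω hω σ k
  exact (mOf_is γ hω).2 σ k

end RM

end SymExt
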