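import Pool.Agent.Lib.MP_8b9ec4_lc.RM.Names

/-!
# Module N2: names of sequences of nodes, and the complement of the event of the sum
-/

namespace SymExt

namespace RM

open Name MeasureTheory

namespace N2

theorem rep_meas (b : B) : MeasurableSet (rep b) := by
  unfold rep
  split_ifs with h
  · exact h.choose_spec.1
  · exact MeasurableSet.empty

theorem AC_meas (γ : Name B) (j : ℕ) (σ : List Bool) : MeasurableSet (AC γ j σ) := rep_meas _

theorem DC_pos (γ : Name B) (j : ℕ) (σ : List Bool) :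
    DC γ (j, σ, σ) = ⋂ τ, (AC γ j τ)ᶜ := by
  simp only [DC, if_true]

theorem DC_neg (γ : Name B) (j : ℕ) {σ σ' : List Bool} (h : σ ≠ σ') :
    DC γ (j, σ, σ') = AC γ j σ ∩ AC γ j σ' := by
  simp only [DC, if_neg h]

theorem DC_meas (γ : Name B) (q : ℕ × List Bool × List Bool) : MeasurableSet (DC γ q) := by
  obtain ⟨j, σ, σ'⟩ := q
  by_cases h : σ = σ'
  · subst h
    rw [DC_pos]
    exact MeasurableSet.iInter fun τ => (AC_meas γ j τ).compl
  · rw [DC_neg γ j h]
    exact (AC_meas γ j σ).inter (AC_meas γ j σ')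

theorem sInf_eq_iff (S : Set ℕ) (n : ℕ) :
    sInf S = n ↔ (n ∈ S ∧ ∀ m < n, m ∉ S) ∨ (n = 0 ∧ ∀ m, m ∉ S) := by
  constructor
  · rintro rfl
    rcases Set.eq_empty_or_nonempty S with h | h
    · right
      refine ⟨?_, fun m hm => ?_⟩
      · rw [h, Nat.sInf_empty]
      · rw [h] at hm
        exact hm
    · left
      exact ⟨Nat.sInf_mem h, fun m hm => Nat.notMem_of_lt_sInf hm⟩
  · rintro (⟨h, h'⟩ | ⟨rfl, h⟩)
    · apply le_antisymm (Nat.sInf_le h)
      apply le_csInf ⟨n, h⟩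
      intro m hm
      by_contra hlt
      push Not at hlt
      exact h' m hlt hm
    · have : S = ∅ := Set.eq_empty_of_forall_notMem h
      rw [this, Nat.sInf_empty]

/-- the codes of the values -/
def Sc (γ : Name B) (j : ℕ) (ω : Om) : Set ℕ :=
  {n | ∃ σ : List Bool, Encodable.encode σ = n ∧ ω ∈ AC γ j σ}

theorem Sc_meas (γ : Name B) (j n : ℕ) : MeasurableSet {ω | n ∈ Sc γ j ω} := by
  have h : {ω | n ∈ Sc γ j ω} = ⋃ σ : {σ : List Bool // Encodable.encode σ = n}, AC γ j σ.1 := by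
    ext ω
    simp only [Sc, Set.mem_ofPred_eq, Set.mem_iUnion, Subtype.exists, exists_prop]
  rw [h]
  exact MeasurableSet.iUnion fun σ => AC_meas γ j σ.1

theorem inf_meas (γ : Name B) (j n : ℕ) : MeasurableSet {ω | sInf (Sc γ j ω) = n} := by
  have h : {ω | sInf (Sc γ j ω) = n} =
      ({ω | n ∈ Sc γ j ω} ∩ ⋂ m : {m : ℕ // m < n}, {ω | m.1 ∈ Sc γ j ω}ᶜ) ∪
      ({ω | n = 0} ∩ ⋂ m : ℕ, {ω | m ∈ Sc γ j ω}ᶜ) := by
    ext ω
    simp only [Set.mem_ofPred_eq, sInf_eq_iff, Set.mem_union, Set.mem_inter_iff, Set.mem_iInter,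
      Set.mem_compl_iff, Subtype.forall]
  rw [h]
  exact ((Sc_meas γ j n).inter (MeasurableSet.iInter fun m : {m : ℕ // m < n} =>
    (Sc_meas γ j m.1).compl)).union
    ((MeasurableSet.const _).inter (MeasurableSet.iInter fun m => (Sc_meas γ j m).compl))

theorem cOf_meas (γ : Name B) : CM (cOf γ) := by
  intro j σ
  have h : {ω | cOf γ ω j = σ} =
      ⋃ n : {n : ℕ // (Encodable.decode n : Option (List Bool)).getD [] = σ},
        {ω | sInf (Sc γ j ω) = n.1} := by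
    ext ω
    simp only [Set.mem_ofPred_eq, Set.mem_iUnion, Subtype.exists, exists_prop]
    constructor
    · intro h
      exact ⟨_, h, rfl⟩
    · rintro ⟨n, h, h'⟩
      rw [← h']  at h
      exact h
  rw [h]
  exact MeasurableSet.iUnion fun n => inf_meas γ j n.1

theorem cOf_iff (γ : Name B) (ω : Om) (hω : ω ∉ ⋃ q, DC γ q) (j : ℕ) (σ : List Bool) :
    ω ∈ AC γ j σ ↔ cOf γ ω j = σ := by
  rw [Set.mem_iUnion] at hω
  push Not at hω
  have hex : ∃ τ, ω ∈ AC γ j τ := by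
    by_contra hcon
    push Not at hcon
    apply hω (j, [], [])
    rw [DC_pos, Set.mem_iInter]
    exact hcon
  have huniq : ∀ τ τ', ω ∈ AC γ j τ → ω ∈ AC γ j τ' → τ = τ' := by
    intro τ τ' h h'
    by_contra hne
    apply hω (j, τ, τ')
    rw [DC_neg γ j hne]
    exact ⟨h, h'⟩
  obtain ⟨τ, hτ⟩ := hex
  have hS : Sc γ j ω = {Encodable.encode τ} := by
    ext n
    simp only [Sc, Set.mem_ofPred_eq, Set.mem_singleton_iff]
    constructor
    · rintro ⟨τ', rfl, h⟩
      rw [huniq τ' τ h hτ]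
    · rintro rfl
      exact ⟨τ, rfl, hτ⟩
  have hc : cOf γ ω j = τ := by
    change ((Encodable.decode (sInf (Sc γ j ω)) : Option (List Bool)).getD []) = τ
    rw [hS, csInf_singleton, Encodable.encodek]
    rfl
  rw [hc]
  constructor
  · intro h
    exact huniq _ _ hτ h
  · rintro rfl
    exact hτ

theorem sum_le (L : List (List Bool × ℕ)) : ∀ a : ℕ → ℝ,
    (∀ (j : ℕ) (p : List Bool × ℕ), L[j]? = some p → rat p.2 ≤ a j) →
    (L.map fun p => rat p.2).sum ≤ ∑ j ∈ Finset.range L.length, a j := by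
  induction L with
  | nil => intro a _; simp
  | cons p L ih =>
    intro a h
    rw [List.map_cons, List.sum_cons, List.length_cons, Finset.sum_range_succ', add_comm]
    refine add_le_add (ih (fun j => a (j + 1)) fun j q hq => h (j + 1) q ?_) (h 0 p ?_)
    · rw [List.getElem?_cons_succ]
      exact hq
    · rfl

theorem sum_range (f : ℕ → ℝ) (n : ℕ) :
    ((List.range n).map f).sum = ∑ j ∈ Finset.range n, f j := by
  induction n with
  | zero => simp
  | succ n ih =>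
    rw [List.range_succ, List.map_append, List.sum_append, ih, Finset.sum_range_succ]
    simp

theorem exists_rat (x : ℝ) (hx : 0 ≤ x) (N : ℕ) :
    rat (Nat.pair ⌊x * (N + 1)⌋₊ N) ≤ x ∧ x - 1 / (N + 1) ≤ rat (Nat.pair ⌊x * (N + 1)⌋₊ N) := by
  have hN : (0 : ℝ) < (N : ℝ) + 1 := by positivity
  unfold rat
  rw [Nat.unpair_pair]
  constructor
  · rw [div_le_iff₀ hN]
    exact Nat.floor_le (by positivity)
  · rw [le_div_iff₀ hN, sub_mul, one_div, inv_mul_cancel₀ hN.ne']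
    have := Nat.lt_floor_add_one (x * (N + 1))
    linarith

theorem evSum_compl (m : Om → List Bool → ℝ) (c : Om → ℕ → List Bool) (i : ℕ) (hm : MM m) :
    (evSum m c i)ᶜ = ⋃ L : {L : List (List Bool × ℕ) // (1 / 2 : ℝ) ^ i <
      (L.map fun p => rat p.2).sum}, evL m c L.1 := by
  ext ω
  have hnn : ∀ j, 0 ≤ m ω (c ω j) := fun j => (hm.2 ω).nonneg _
  have hpart : ∀ n, ∑ j ∈ Finset.range n, ENNReal.ofReal (m ω (c ω j)) =
      ENNReal.ofReal (∑ j ∈ Finset.range n, m ω (c ω j)) := fun n =>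
    (ENNReal.ofReal_sum_of_nonneg fun j _ => hnn j).symm
  have hiff : ω ∈ (evSum m c i)ᶜ ↔ ∃ n, (1 / 2 : ℝ) ^ i < ∑ j ∈ Finset.range n, m ω (c ω j) := by
    rw [Set.mem_compl_iff, evSum, Set.mem_ofPred_eq, not_le, ENNReal.tsum_eq_iSup_nat,
      lt_iSup_iff]
    refine exists_congr fun n => ?_
    rw [hpart, ENNReal.ofReal_lt_ofReal_iff_of_nonneg (by positivity)]
  rw [hiff, Set.mem_iUnion]
  constructor
  · rintro ⟨n, hn⟩
    obtain ⟨N, hN⟩ : ∃ N : ℕ, (n : ℝ) * (1 / ((N : ℝ) + 1)) <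
        (∑ j ∈ Finset.range n, m ω (c ω j)) - (1 / 2 : ℝ) ^ i := by
      have hpos : 0 < (∑ j ∈ Finset.range n, m ω (c ω j)) - (1 / 2 : ℝ) ^ i := sub_pos.2 hn
      obtain ⟨N, hN⟩ := exists_nat_gt ((n : ℝ) /
        ((∑ j ∈ Finset.range n, m ω (c ω j)) - (1 / 2 : ℝ) ^ i))
      refine ⟨N, ?_⟩
      have h1 : (0 : ℝ) < (N : ℝ) + 1 := by positivity
      rw [mul_one_div, div_lt_iff₀ h1]
      rw [div_lt_iff₀ hpos] at hN
      nlinarith
    refine ⟨⟨(List.range n).map fun j => (c ω j, Nat.pair ⌊m ω (c ω j) * (N + 1)⌋₊ N), ?_⟩, ?_⟩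
    · rw [List.map_map]
      change _ < ((List.range n).map
        fun j => rat (Nat.pair ⌊m ω (c ω j) * (N + 1)⌋₊ N)).sum
      rw [sum_range]
      have h1 : ∑ j ∈ Finset.range n, (m ω (c ω j) - 1 / ((N : ℝ) + 1)) ≤
          ∑ j ∈ Finset.range n, rat (Nat.pair ⌊m ω (c ω j) * (N + 1)⌋₊ N) :=
        Finset.sum_le_sum fun j _ => (exists_rat _ (hnn j) N).2
      rw [Finset.sum_sub_distrib, Finset.sum_const, Finset.card_range, nsmul_eq_mul] at h1
      linarith
    · intro j p hp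
      rw [List.getElem?_map] at hp
      obtain ⟨k, hk, rfl⟩ := Option.map_eq_some_iff.1 hp
      have hk' : k = j := by
        rw [List.getElem?_eq_some_iff] at hk
        obtain ⟨h1, h2⟩ := hk
        rw [← h2, List.getElem_range]
      subst hk'
      exact ⟨rfl, not_lt.2 (exists_rat _ (hnn k) N).1⟩
  · rintro ⟨⟨L, hL⟩, hω⟩
    refine ⟨L.length, lt_of_lt_of_le hL (sum_le L _ fun j p hp => ?_)⟩
    obtain ⟨h1, h2⟩ := hω j p hp
    rw [h1]
    exact not_lt.1 h2

end N2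

theorem stB2 : StB2 := fun _ =>
  ⟨fun γ => ⟨N2.cOf_meas γ, MeasurableSet.iUnion fun q => N2.DC_meas γ q, N2.DC_meas γ,
    fun ω hω j σ => N2.cOf_iff γ ω hω j σ⟩, fun m c i hm _ => N2.evSum_compl m c i hm⟩

end RM

end SymExt
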