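import Pool.Agent.Lib.MP_8b9ec4_lc.RM.Names

/-!
# Values of names in the random model
-/

namespace SymExt

namespace RM

open Name MeasureTheory

namespace S0

/-! ### Rational numbers -/

theorem rat_pair (a b : ℕ) : rat (Nat.pair a b) = (a : ℝ) / (b + 1) := by
  rw [rat, Nat.unpair_pair]

theorem exists_rat {x y : ℝ} (hx : 0 ≤ x) (h : x < y) : ∃ k, x < rat k ∧ rat k < y := by
  obtain ⟨q, hq1, hq2⟩ := exists_rat_btwn h
  have hq : 0 < q := by
    have : (0 : ℝ) < q := hx.trans_lt hq1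
    exact_mod_cast this
  refine ⟨Nat.pair q.num.toNat (q.den - 1), ?_⟩
  have hd : ((q.den - 1 : ℕ) : ℝ) + 1 = q.den := by
    have h1 : 1 ≤ q.den := q.pos
    have : ((q.den - 1 : ℕ) : ℝ) = (q.den : ℝ) - 1 := by
      push_cast [Nat.cast_sub h1]
      ring
    rw [this]
    ring
  have hn : ((q.num.toNat : ℕ) : ℝ) = (q.num : ℝ) := by
    have : (q.num.toNat : ℤ) = q.num := Int.toNat_of_nonneg (Rat.num_pos.2 hq).le
    exact_mod_cast this
  have : rat (Nat.pair q.num.toNat (q.den - 1)) = (q : ℝ) := by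
    rw [rat_pair, hd, hn]
    exact (Rat.cast_def q).symm
  rw [this]
  exact ⟨hq1, hq2⟩

/-! ### The algebra -/

variable {U : Set B} {C : Set (Name B)}

theorem ev_mono (H : MAlg mu ev) {A D : Set Om} (hA : MeasurableSet A) (hD : MeasurableSet D)
    (h : A ⊆ D) : ev A ≤ ev D := by
  rw [H.le_iff A D hA hD, Set.sdiff_eq_empty.2 h, measure_empty]

theorem ev_inter (H : MAlg mu ev) {A D : Set Om} (hA : MeasurableSet A) (hD : MeasurableSet D) :
    ev (A ∩ D) = ev A ⊓ ev D := by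
  apply le_antisymm
  · exact le_inf (ev_mono H (hA.inter hD) hA Set.inter_subset_left)
      (ev_mono H (hA.inter hD) hD Set.inter_subset_right)
  · obtain ⟨E, hE, hE'⟩ := H.surj (ev A ⊓ ev D)
    have h1 : ev E ≤ ev A := hE' ▸ inf_le_left
    have h2 : ev E ≤ ev D := hE' ▸ inf_le_right
    rw [H.le_iff E A hE hA] at h1
    rw [H.le_iff E D hE hD] at h2
    rw [← hE', H.le_iff E (A ∩ D) hE (hA.inter hD), Set.sdiff_inter]
    exact measure_union_null h1 h2

theorem ev_empty (H : MAlg mu ev) : ev ∅ = ⊥ := by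
  obtain ⟨E, hE, hE'⟩ := H.surj ⊥
  refine le_bot_iff.1 ?_
  rw [← hE', H.le_iff ∅ E MeasurableSet.empty hE, Set.empty_sdiff, measure_empty]

theorem ev_congr (H : MAlg mu ev) {A D : Set Om} (hA : MeasurableSet A) (hD : MeasurableSet D)
    (h1 : mu (A \ D) = 0) (h2 : mu (D \ A) = 0) : ev A = ev D :=
  le_antisymm ((H.le_iff A D hA hD).2 h1) ((H.le_iff D A hD hA).2 h2)

theorem rep_meas (H : MAlg mu ev) (b : B) : MeasurableSet (rep b) := by
  have h := H.surj b
  rw [rep, dif_pos h]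
  exact h.choose_spec.1

theorem ev_rep (H : MAlg mu ev) (b : B) : ev (rep b) = b := by
  have h := H.surj b
  rw [rep, dif_pos h]
  exact h.choose_spec.2

theorem up_of (H : MAlg mu ev) (h : Good (triv B) C U) {A D : Set Om} (hA : MeasurableSet A)
    (hD : MeasurableSet D) (hs : A ⊆ D) (hU : ev A ∈ U) : ev D ∈ U :=
  h.up _ hU _ (ev_mono H hA hD hs)

theorem no_disj (H : MAlg mu ev) (h : Good (triv B) C U) {A D : Set Om} (hA : MeasurableSet A)
    (hD : MeasurableSet D) (hs : ∀ ω ∈ A, ω ∉ D) (hU : ev A ∈ U) (hU' : ev D ∈ U) : False := by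
  have h1 := h.inf _ hU _ hU'
  rw [← ev_inter H hA hD] at h1
  have h2 : A ∩ D = ∅ := by
    ext ω
    constructor
    · rintro ⟨h3, h4⟩
      exact absurd h4 (hs ω h3)
    · intro h3
      exact absurd h3 (Set.notMem_empty ω)
  rw [h2, ev_empty H] at h1
  exact h.bot h1

theorem inter_iff (H : MAlg mu ev) (h : Good (triv B) C U) {A D : Set Om} (hA : MeasurableSet A)
    (hD : MeasurableSet D) : ev (A ∩ D) ∈ U ↔ ev A ∈ U ∧ ev D ∈ U := by
  rw [ev_inter H hA hD, h.inf_iff]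

theorem beq_natN {n m : ℕ} (hnm : n ≠ m) : beq (natN n) (natN m) = (⊥ : B) := by
  by_contra hcon
  obtain ⟨C, U, hG, hb, -⟩ := exists_good (triv B) (O := Empty) (R := Empty)
    (fun o => o.elim) (fun r => r.elim) (beq (natN n) (natN m)) hcon
  have h1 := (hG.beq_iff _ _ (hG.nat n) (hG.nat m)).1 hb
  rw [hG.val_natN, hG.val_natN] at h1
  exact hnm (natSet_inj h1)

theorem bmem_rN (r : Om → Set ℕ) (n : ℕ) : bmem (natN n) (rN r) = ev {ω | n ∈ r ω} := by
  apply le_antisymm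
  · refine iSup_le fun j => ?_
    change ev {ω | j ∈ r ω} ⊓ beq (natN n) (natN j) ≤ _
    by_cases hj : n = j
    · subst hj
      exact inf_le_left
    · rw [beq_natN hj]
      exact inf_le_right.trans bot_le
  · exact le_bmem_elt (y := rN r) n le_rfl

theorem mem_realSet {x : Set ℕ} {z : ZFSet} : z ∈ realSet x ↔ ∃ n ∈ x, z = natSet n := by
  rw [realSet, ZFSet.mem_sep, mem_omega_iff]
  constructor
  · rintro ⟨_, h⟩
    exact h
  · rintro ⟨n, hn, rfl⟩
    exact ⟨⟨n, rfl⟩, n, hn, rfl⟩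

theorem natSet_mem_realSet {x : Set ℕ} {n : ℕ} : natSet n ∈ realSet x ↔ n ∈ x := by
  rw [mem_realSet]
  constructor
  · rintro ⟨m, hm, h⟩
    rwa [natSet_inj h]
  · intro h
    exact ⟨n, h, rfl⟩

theorem rval (h : Good (triv B) C U) (r : Om → Set ℕ) :
    val C U (rN r) = realSet (star U r) := by
  ext z
  rw [mem_val, mem_realSet]
  constructor
  · rintro ⟨i, _, h2, h3⟩
    refine ⟨i, h2, ?_⟩
    rw [h3]
    exact h.val_natN i
  · rintro ⟨i, h2, h3⟩
    refine ⟨i, h.nat i, h2, ?_⟩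
    rw [h3]
    exact (h.val_natN i).symm

theorem sr_rOf (H : MAlg mu ev) (ρ : Name B) : SR (rOf ρ) := fun _ => rep_meas H _

theorem star_rOf (H : MAlg mu ev) (h : Good (triv B) C U) {ρ : Name B} (hρ : ρ ∈ C) {x : Set ℕ}
    (hx : realSet x = val C U ρ) : star U (rOf ρ) = x := by
  ext n
  change ev (rep (bmem (natN n) ρ)) ∈ U ↔ _
  rw [ev_rep H, h.bmem_iff (h.nat n) hρ, h.val_natN, ← hx, natSet_mem_realSet]

theorem rr (H : MAlg mu ev) (r : Om → Set ℕ) (hr : SR r) : mu {ω | rOf (rN r) ω ≠ r ω} = 0 := by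
  have h1 : ∀ n, mu ((rep (bmem (natN n) (rN r)) \ {ω | n ∈ r ω}) ∪
      ({ω | n ∈ r ω} \ rep (bmem (natN n) (rN r)))) = 0 := by
    intro n
    have h2 : ev (rep (bmem (natN n) (rN r))) = ev {ω | n ∈ r ω} := by
      rw [ev_rep H, bmem_rN]
    exact measure_union_null ((H.le_iff _ _ (rep_meas H _) (hr n)).1 h2.le)
      ((H.le_iff _ _ (hr n) (rep_meas H _)).1 h2.ge)
  refine measure_mono_null ?_ (measure_iUnion_null h1)
  intro ω hω
  by_contra hcon
  apply hω
  ext n
  rw [Set.mem_iUnion] at hcon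
  push Not at hcon
  have h3 := hcon n
  change ω ∈ rep (bmem (natN n) (rN r)) ↔ _
  constructor
  · intro h4
    by_contra h5
    exact h3 (Or.inl ⟨h4, h5⟩)
  · intro h4
    by_contra h5
    exact h3 (Or.inr ⟨h4, h5⟩)

/-- the filter decides the elements of random reals -/
theorem dec_mem (H : MAlg mu ev) (h : Good (triv B) C U) {r : Om → Set ℕ} (hr : SR r)
    (hC : rN r ∈ C) (n : ℕ) : ev {ω | n ∈ r ω} ∈ U ∨ ev {ω | n ∈ r ω}ᶜ ∈ U := by
  have h1 := h.dec 2 (.mem 0 1) ![natN n, rN r] (by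
    intro i
    fin_cases i
    · exact h.nat n
    · exact hC)
  change bmem (natN n) (rN r) ∈ U ∨ (bmem (natN n) (rN r))ᶜ ∈ U at h1
  rw [bmem_rN] at h1
  rwa [H.compl _ (hr n)]

theorem isInit_cons (b : Bool) (σ : List Bool) (t : Set ℕ) :
    IsInit (b :: σ) t ↔ ((σ.length ∈ t ↔ b = true) ∧ IsInit σ t) := by
  classical
  unfold IsInit
  rw [List.length_cons, init, List.cons_eq_cons]
  refine and_congr ?_ Iff.rfl
  cases b <;> simp

theorem meas_symm {s r : Om → Set ℕ} (hs : SR s) (hr : SR r) (n : ℕ) :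
    MeasurableSet {ω | n ∈ symmDiff (s ω) (r ω)} := by
  have : {ω | n ∈ symmDiff (s ω) (r ω)} = ({ω | n ∈ s ω} \ {ω | n ∈ r ω}) ∪
      ({ω | n ∈ r ω} \ {ω | n ∈ s ω}) := by
    ext ω
    rfl
  rw [this]
  exact ((hs n).diff (hr n)).union ((hr n).diff (hs n))

theorem meas_init {s r : Om → Set ℕ} (hs : SR s) (hr : SR r) (σ : List Bool) :
    MeasurableSet {ω | IsInit σ (symmDiff (s ω) (r ω))} := by
  induction σ with
  | nil =>
    have : {ω | IsInit [] (symmDiff (s ω) (r ω))} = Set.univ := by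
      ext ω
      simp [IsInit, init]
    rw [this]
    exact MeasurableSet.univ
  | cons b σ ih =>
    have : {ω | IsInit (b :: σ) (symmDiff (s ω) (r ω))} =
        {ω | (σ.length ∈ symmDiff (s ω) (r ω) ↔ b = true)} ∩
          {ω | IsInit σ (symmDiff (s ω) (r ω))} := by
      ext ω
      exact isInit_cons b σ _
    rw [this]
    refine MeasurableSet.inter ?_ ih
    cases b
    · have h1 : {ω | (σ.length ∈ symmDiff (s ω) (r ω) ↔ false = true)} =
          {ω | σ.length ∈ symmDiff (s ω) (r ω)}ᶜ := by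
        ext ω
        simp
      rw [h1]
      exact (meas_symm hs hr _).compl
    · have h1 : {ω | (σ.length ∈ symmDiff (s ω) (r ω) ↔ true = true)} =
          {ω | σ.length ∈ symmDiff (s ω) (r ω)} := by
        ext ω
        simp
      rw [h1]
      exact meas_symm hs hr _

/-- elements of symmetric differences -/
theorem symm_iff (H : MAlg mu ev) (h : Good (triv B) C U) {s r : Om → Set ℕ} (hs : SR s)
    (hr : SR r) (hsC : rN s ∈ C) (hrC : rN r ∈ C) (n : ℕ) :
    (n ∈ symmDiff (star U s) (star U r) → ev {ω | n ∈ symmDiff (s ω) (r ω)} ∈ U) ∧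
    (n ∉ symmDiff (star U s) (star U r) → ev {ω | n ∈ symmDiff (s ω) (r ω)}ᶜ ∈ U) := by
  have hm := meas_symm hs hr n
  have e1 : ∀ {t : Om → Set ℕ}, SR t → rN t ∈ C → n ∉ star U t → ev {ω | n ∈ t ω}ᶜ ∈ U := by
    intro t ht htC hn
    rcases dec_mem H h ht htC n with h1 | h1
    · exact absurd h1 hn
    · exact h1
  constructor
  · rintro (⟨h1, h2⟩ | ⟨h1, h2⟩)
    · refine up_of H h ((hs n).inter (hr n).compl) hm ?_
        ((inter_iff H h (hs n) (hr n).compl).2 ⟨h1, e1 hr hrC h2⟩)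
      rintro ω ⟨h3, h4⟩
      exact Or.inl ⟨h3, h4⟩
    · refine up_of H h ((hr n).inter (hs n).compl) hm ?_
        ((inter_iff H h (hr n) (hs n).compl).2 ⟨h1, e1 hs hsC h2⟩)
      rintro ω ⟨h3, h4⟩
      exact Or.inr ⟨h3, h4⟩
  · intro h0
    by_cases h1 : n ∈ star U s
    · by_cases h2 : n ∈ star U r
      · refine up_of H h ((hs n).inter (hr n)) hm.compl ?_
          ((inter_iff H h (hs n) (hr n)).2 ⟨h1, h2⟩)
        rintro ω ⟨h3, h4⟩ (⟨h5, h6⟩ | ⟨h5, h6⟩)
        · exact h6 h4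
        · exact h6 h3
      · exact absurd (Or.inl ⟨h1, h2⟩) h0
    · by_cases h2 : n ∈ star U r
      · exact absurd (Or.inr ⟨h2, h1⟩) h0
      · refine up_of H h ((hs n).compl.inter (hr n).compl) hm.compl ?_
          ((inter_iff H h (hs n).compl (hr n).compl).2 ⟨e1 hs hsC h1, e1 hr hrC h2⟩)
        rintro ω ⟨h3, h4⟩ (⟨h5, h6⟩ | ⟨h5, h6⟩)
        · exact h3 h5
        · exact h4 h5

theorem ini (H : MAlg mu ev) (h : Good (triv B) C U) {s r : Om → Set ℕ} (hs : SR s)
    (hr : SR r) (hsC : rN s ∈ C) (hrC : rN r ∈ C) (σ : List Bool) :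
    ev {ω | IsInit σ (symmDiff (s ω) (r ω))} ∈ U ↔
      IsInit σ (symmDiff (star U s) (star U r)) := by
  induction σ with
  | nil =>
    have : {ω | IsInit [] (symmDiff (s ω) (r ω))} = Set.univ := by
      ext ω
      simp [IsInit, init]
    rw [this]
    constructor
    · intro _
      simp [IsInit, init]
    · intro _
      obtain ⟨E, hE, hE'⟩ := H.surj ⊤
      exact up_of H h hE MeasurableSet.univ (Set.subset_univ _) (hE' ▸ h.top)
  | cons b σ ih =>
    have e0 : {ω | IsInit (b :: σ) (symmDiff (s ω) (r ω))} =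
        {ω | (σ.length ∈ symmDiff (s ω) (r ω) ↔ b = true)} ∩
          {ω | IsInit σ (symmDiff (s ω) (r ω))} := by
      ext ω
      exact isInit_cons b σ _
    obtain ⟨k1, k2⟩ := symm_iff H h hs hr hsC hrC σ.length
    have hm := meas_symm hs hr σ.length
    cases b
    · have h1 : {ω | (σ.length ∈ symmDiff (s ω) (r ω) ↔ false = true)} =
          {ω | σ.length ∈ symmDiff (s ω) (r ω)}ᶜ := by
        ext ω
        simp
      rw [e0, h1, inter_iff H h hm.compl (meas_init hs hr σ), ih, isInit_cons]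
      refine and_congr ?_ Iff.rfl
      constructor
      · intro h2
        constructor
        · intro h3
          exact (no_disj H h hm hm.compl (fun ω h4 h5 => h5 h4) (k1 h3) h2).elim
        · intro h3
          exact absurd h3 (by simp)
      · intro h2
        apply k2
        intro h3
        exact absurd (h2.1 h3) (by simp)
    · have h1 : {ω | (σ.length ∈ symmDiff (s ω) (r ω) ↔ true = true)} =
          {ω | σ.length ∈ symmDiff (s ω) (r ω)} := by
        ext ω
        simp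
      rw [e0, h1, inter_iff H h hm (meas_init hs hr σ), ih, isInit_cons]
      refine and_congr ?_ Iff.rfl
      constructor
      · intro h2
        constructor
        · intro _
          rfl
        · intro _
          by_contra h3
          exact no_disj H h hm hm.compl (fun ω h4 h5 => h5 h4) h2 (k2 h3)
      · intro h2
        exact k1 (h2.2 rfl)

/-! ### Measures -/

theorem am_iff (H : MAlg mu ev) (h : Good (triv B) C U) (hG : GR C U) {γ : Name B} (hγ : γ ∈ C)
    {m : List Bool → ℝ}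
    (hv : ∀ z, z ∈ val C U γ ↔ ∃ σ k, m σ < rat k ∧ z = ZFSet.pair (nodeSet σ) (natSet k))
    (σ : List Bool) (k : ℕ) : ev (AM γ σ k) ∈ U ↔ m σ < rat k := by
  rw [AM, ev_rep H, h.bmem_iff (h.opN_mem (hG.node σ) (h.nat k)) hγ,
    h.val_opN (hG.node σ) (h.nat k), val_nodeN h, h.val_natN, hv]
  constructor
  · rintro ⟨σ', k', h1, h2⟩
    rw [ZFSet.pair_inj] at h2
    rw [nodeSet_inj h2.1, natSet_inj h2.2]
    exact h1
  · intro h1
    exact ⟨σ, k, h1, rfl⟩

theorem am_meas (H : MAlg mu ev) (γ : Name B) (σ : List Bool) (k : ℕ) :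
    MeasurableSet (AM γ σ k) := rep_meas H _

theorem ac_iff (H : MAlg mu ev) (h : Good (triv B) C U) (hG : GR C U) {γ : Name B} (hγ : γ ∈ C)
    {c : ℕ → List Bool}
    (hv : ∀ z, z ∈ val C U γ ↔ ∃ j, z = ZFSet.pair (natSet j) (nodeSet (c j)))
    (j : ℕ) (σ : List Bool) : ev (AC γ j σ) ∈ U ↔ c j = σ := by
  rw [AC, ev_rep H, h.bmem_iff (h.opN_mem (h.nat j) (hG.node σ)) hγ,
    h.val_opN (h.nat j) (hG.node σ), val_nodeN h, h.val_natN, hv]
  constructor
  · rintro ⟨j', h2⟩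
    rw [ZFSet.pair_inj] at h2
    rw [nodeSet_inj h2.2, natSet_inj h2.1]
  · rintro rfl
    exact ⟨j, rfl⟩

theorem ac_meas (H : MAlg mu ev) (γ : Name B) (j : ℕ) (σ : List Bool) :
    MeasurableSet (AC γ j σ) := rep_meas H _

theorem no_DM (H : MAlg mu ev) (h : Good (triv B) C U) (hG : GR C U) {γ : Name B} (hγ : γ ∈ C)
    (hDM : ∀ q, MeasurableSet (DM γ q))
    {m : List Bool → ℝ} (hm : IsMeas m)
    (hv : ∀ z, z ∈ val C U γ ↔ ∃ σ k, m σ < rat k ∧ z = ZFSet.pair (nodeSet σ) (natSet k))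
    (q : ℕ × List Bool × ℕ × ℕ × ℕ) (hq : ev (DM γ q) ∈ U) : False := by
  have key := am_iff H h hG hγ hv
  have hM := am_meas H γ
  have hemp : ∀ {P : Prop}, ev (∅ : Set Om) ∈ U → P := by
    intro P h1
    rw [ev_empty H] at h1
    exact absurd h1 h.bot
  have hmq := hDM q
  obtain ⟨i, σ, k, k1, k2⟩ := q
  match i with
  | 0 =>
    by_cases h1 : rat k ≤ rat k1
    · rw [DM, if_pos h1] at hq hmq
      have h2 := (key σ k).1 (up_of H h hmq (hM σ k) Set.sdiff_subset hq)
      exact no_disj H h hmq (hM σ k1) (fun ω h3 => h3.2) hq ((key σ k1).2 (h2.trans_le h1))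
    · rw [DM, if_neg h1] at hq
      exact hemp hq
  | 1 =>
    rw [DM] at hq hmq
    have h2 := (key σ k).1 (up_of H h hmq (hM σ k) Set.sdiff_subset hq)
    obtain ⟨k', h3, h4⟩ := exists_rat (hm.nonneg σ) h2
    refine no_disj H h hmq (hM σ k') (fun ω h5 h6 => h5.2 ?_) hq ((key σ k').2 h3)
    exact Set.mem_iUnion.2 ⟨⟨k', h4⟩, h6⟩
  | 2 =>
    rw [DM] at hq hmq
    obtain ⟨k', h3, -⟩ := exists_rat (hm.nonneg σ) (lt_add_one (m σ))
    refine no_disj H h hmq (hM σ k') (fun ω h5 h6 => ?_) hq ((key σ k').2 h3)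
    exact (Set.mem_iInter.1 h5 k') h6
  | 3 =>
    by_cases h1 : 1 < rat k
    · rw [DM, if_pos h1] at hq hmq
      refine no_disj H h hmq (hM [] k) (fun ω h5 h6 => h5 h6) hq ((key [] k).2 ?_)
      rw [hm.one]
      exact h1
    · rw [DM, if_neg h1] at hq
      have h2 := (key [] k).1 hq
      rw [hm.one] at h2
      exact h1 h2
  | 4 =>
    rw [DM] at hq hmq
    have h2 := (key σ k).1 (up_of H h hmq (hM σ k) Set.sdiff_subset hq)
    have h3 := hm.add σ
    have h4 := hm.nonneg (false :: σ)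
    have h5 := hm.nonneg (true :: σ)
    obtain ⟨p1, h6, h7⟩ := exists_rat h4
      (show m (false :: σ) < m (false :: σ) + (rat k - m σ) / 2 by linarith)
    obtain ⟨p2, h8, h9⟩ := exists_rat h5
      (show m (true :: σ) < m (true :: σ) + (rat k - m σ) / 2 by linarith)
    refine no_disj H h hmq ((hM (false :: σ) p1).inter (hM (true :: σ) p2))
      (fun ω h10 h11 => h10.2 ?_) hq ((inter_iff H h (hM _ _) (hM _ _)).2
        ⟨(key _ p1).2 h6, (key _ p2).2 h8⟩)
    exact Set.mem_iUnion.2 ⟨⟨(p1, p2), by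
      change rat p1 + rat p2 ≤ rat k
      linarith⟩, h11⟩
  | 5 =>
    by_cases h1 : rat k1 + rat k2 ≤ rat k
    · rw [DM, if_pos h1] at hq hmq
      have h2 := (inter_iff H h (hM (false :: σ) k1) (hM (true :: σ) k2)).1
        (up_of H h hmq ((hM _ _).inter (hM _ _)) Set.sdiff_subset hq)
      have h3 := (key _ _).1 h2.1
      have h4 := (key _ _).1 h2.2
      refine no_disj H h hmq (hM σ k) (fun ω h3 => h3.2) hq ((key σ k).2 ?_)
      rw [hm.add σ]
      linarith
    · rw [DM, if_neg h1] at hq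
      exact hemp hq
  | (j + 6) => exact hemp hq

theorem no_DC (H : MAlg mu ev) (h : Good (triv B) C U) (hG : GR C U) {γ : Name B} (hγ : γ ∈ C)
    (hDC : ∀ q, MeasurableSet (DC γ q))
    {c : ℕ → List Bool}
    (hv : ∀ z, z ∈ val C U γ ↔ ∃ j, z = ZFSet.pair (natSet j) (nodeSet (c j)))
    (q : ℕ × List Bool × List Bool) (hq : ev (DC γ q) ∈ U) : False := by
  have key := ac_iff H h hG hγ hv
  have hM := ac_meas H γ
  have hmq := hDC q
  obtain ⟨j, σ, σ'⟩ := q
  by_cases h1 : σ = σ'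
  · rw [DC, if_pos h1] at hq hmq
    refine no_disj H h hmq (hM j (c j)) (fun ω h5 h6 => ?_) hq ((key j (c j)).2 rfl)
    exact (Set.mem_iInter.1 h5 (c j)) h6
  · rw [DC, if_neg h1] at hq
    have h2 := (inter_iff H h (hM j σ) (hM j σ')).1 hq
    exact h1 (((key _ _).1 h2.1).symm.trans ((key _ _).1 h2.2))

/-- events that agree off a set whose complement is in the filter -/
theorem iff_of_off (H : MAlg mu ev) (h : Good (triv B) C U) {N A D : Set Om}
    (hN : MeasurableSet N) (hA : MeasurableSet A) (hD : MeasurableSet D) (hNU : (ev N)ᶜ ∈ U)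
    (hoff : ∀ ω ∉ N, (ω ∈ A ↔ ω ∈ D)) : ev A ∈ U ↔ ev D ∈ U := by
  rw [← H.compl N hN] at hNU
  constructor
  · intro h1
    refine up_of H h (hA.inter hN.compl) hD ?_ ((inter_iff H h hA hN.compl).2 ⟨h1, hNU⟩)
    rintro ω ⟨h2, h3⟩
    exact (hoff ω h3).1 h2
  · intro h1
    refine up_of H h (hD.inter hN.compl) hA ?_ ((inter_iff H h hD hN.compl).2 ⟨h1, hNU⟩)
    rintro ω ⟨h2, h3⟩
    exact (hoff ω h3).2 h2

end S0

open S0 in
theorem stVR : StVR := by
  intro H h1 h2 C U h hG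
  refine ⟨fun r _ _ => rval h r, ?_, sr_rOf H, rr H, fun s r hs hr hsC hrC σ =>
    ini H h hs hr hsC hrC σ, ?_, ?_⟩
  · rintro x ⟨ρ, hρ, _, hx⟩
    exact ⟨rOf ρ, sr_rOf H ρ, hG.real ρ hρ, star_rOf H h hρ hx⟩
  · intro γ hγ m hm hv σ k
    obtain ⟨a1, a2, a3, a4⟩ := h1 H γ
    rcases hG.goodM γ hγ with h3 | ⟨q, hq⟩
    · rw [← am_iff H h hG hγ hv σ k]
      exact iff_of_off H h a2 (measurableSet_lt (a1.1 σ) measurable_const) (am_meas H γ σ k) h3
        fun ω hω => (a4 ω hω σ k).symm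
    · exact (no_DM H h hG hγ a3 hm hv q hq).elim
  · intro γ hγ c hv j σ
    obtain ⟨a1, a2, a3, a4⟩ := (h2 H).1 γ
    rcases hG.goodC γ hγ with h3 | ⟨q, hq⟩
    · rw [← ac_iff H h hG hγ hv j σ]
      exact iff_of_off H h a2 (a1 j σ) (ac_meas H γ j σ) h3
        fun ω hω => (a4 ω hω j σ).symm
    · exact (no_DC H h hG hγ a3 hv q hq).elim

end RM

end SymExt
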