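import Pool.Agent.Lib.MP_8b9ec4_lc.RM.Names

/-!
# Locality of the values of membership in a set of random reals
-/

set_option autoImplicit false

namespace SymExt

namespace RM

open Name MeasureTheory

namespace S2Aux

variable {𝔹 : Type} [CompleteBooleanAlgebra 𝔹] {e : Set Om → 𝔹}

theorem mono (h : MAlg mu e) {A C : Set Om} (hA : MeasurableSet A) (hC : MeasurableSet C)
    (hAC : A ⊆ C) : e A ≤ e C := by
  rw [h.le_iff A C hA hC, Set.diff_eq_empty.2 hAC, measure_empty]

theorem inf_le (h : MAlg mu e) {A D C : Set Om} (hA : MeasurableSet A) (hD : MeasurableSet D)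
    (hC : MeasurableSet C) (hADC : A ∩ D ⊆ C) : e A ⊓ e D ≤ e C := by
  rw [← le_himp_iff, himp_eq]
  have h1 : e A ≤ e (⋃ n : ℕ, if n = 0 then C else Dᶜ) := by
    refine mono h hA (MeasurableSet.iUnion fun n => ?_) fun x hx => ?_
    · by_cases hn : n = 0
      · simpa [hn] using hC
      · simpa [hn] using hD.compl
    · rw [Set.mem_iUnion]
      by_cases hxD : x ∈ D
      · exact ⟨0, by simpa using hADC ⟨hx, hxD⟩⟩
      · exact ⟨1, by simpa using hxD⟩
  refine h1.trans ?_
  rw [h.iUnion]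
  · refine iSup_le fun n => ?_
    by_cases hn : n = 0
    · simp [hn]
    · simp [hn, h.compl D hD]
  · intro n
    by_cases hn : n = 0
    · simpa [hn] using hC
    · simpa [hn] using hD.compl

theorem meas_eq {s s' : Om → Set ℕ} (hs : SR s) (hs' : SR s') :
    MeasurableSet {ω | s ω = s' ω} := by
  have h : {ω | s ω = s' ω} = {ω | ∀ n, n ∈ s ω ↔ n ∈ s' ω} := by
    ext ω
    exact Set.ext_iff
  rw [h, measurableSet_setOf]
  exact Measurable.forall fun n =>
    Measurable.iff (measurableSet_setOf.1 (hs n)) (measurableSet_setOf.1 (hs' n))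

theorem le_bsub (h : MAlg mu ev) {s s' : Om → Set ℕ} (hs : SR s) (hs' : SR s') {Γ : B}
    (hΓ : Γ ≤ ev {ω | s ω = s' ω}) : Γ ≤ bsub (rN s) (rN s') := by
  rw [le_bsub_iff]
  intro n Δ hΔ hn
  refine le_bmem_elt (y := rN s') n ?_
  change Δ ≤ ev {ω | n ∈ s' ω}
  refine (le_inf (hΔ.trans hΓ) hn).trans ?_
  refine inf_le h (meas_eq hs hs') (hs n) (hs' n) ?_
  rintro ω ⟨h1, h2⟩
  change s ω = s' ω at h1
  change n ∈ s ω at h2
  change n ∈ s' ω
  rwa [← h1]

end S2Aux

open S2Aux

theorem stLoc : StLoc := by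
  intro h ς s s' hs hs'
  have h1 : ev {ω | s ω = s' ω} ≤ beq (rN s) (rN s') := by
    rw [le_beq_iff]
    refine ⟨le_bsub h hs hs' le_rfl, le_bsub h hs' hs ?_⟩
    have e : {ω | s ω = s' ω} = {ω | s' ω = s ω} := by
      ext ω
      exact eq_comm
    rw [e]
  exact bmem_congr_left (inf_le_left.trans h1) inf_le_right

end RM

end SymExt
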