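import Pool.Agent.Lib.MP_8b9ec4_lc.RM.Asm
import Pool.Agent.Lib.MP_8b9ec4_lc.RM.A2
import Pool.Agent.Lib.MP_8b9ec4_lc.RM.A3
import Pool.Agent.Lib.MP_8b9ec4_lc.RM.A4
import Pool.Agent.Lib.MP_8b9ec4_lc.RM.A5
import Pool.Agent.Lib.MP_8b9ec4_lc.RM.A6
import Pool.Agent.Lib.MP_8b9ec4_lc.RM.A7
import Pool.Agent.Lib.MP_8b9ec4_lc.RM.N1
import Pool.Agent.Lib.MP_8b9ec4_lc.RM.N2
import Pool.Agent.Lib.MP_8b9ec4_lc.RM.S0
import Pool.Agent.Lib.MP_8b9ec4_lc.RM.S1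
import Pool.Agent.Lib.MP_8b9ec4_lc.RM.S2
import Pool.Agent.Lib.MP_8b9ec4_lc.RM.M1

/-!
# The Cantor group need not be the union of two naively Haar null sets
-/

namespace SymExt

namespace RM

theorem main : ∃ N : Set ZFSet.{0}, N.Countable ∧ IsZFC N ∧ NoPartition N :=
  main_of (stE stMix stSupp stQ (stNull stFub)) stB1 stB2 stGR stVR stSem stLoc

end RM

end SymExt
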