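import Pool.Agent.Lib.MP_8b9ec4_lc.RM.Names

/-!
# A naively Haar null set in the model has its Boolean value in the filter
-/

set_option autoImplicit false

namespace SymExt

namespace RM

open Name MeasureTheory

namespace S1Aux

variable {𝔹 : Type} [CompleteBooleanAlgebra 𝔹] {e : Set Om → 𝔹}

theorem mono (h : MAlg mu e) {A D : Set Om} (hA : MeasurableSet A) (hD : MeasurableSet D)
    (hAD : A ⊆ D) : e A ≤ e D := by
  rw [h.le_iff A D hA hD, Set.sdiff_eq_empty.2 hAD, measure_empty]

theorem inf_le (h : MAlg mu e) {A D E : Set Om} (hA : MeasurableSet A) (hD : MeasurableSet D)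
    (hE : MeasurableSet E) (hADE : A ∩ D ⊆ E) : e A ⊓ e D ≤ e E := by
  rw [← le_himp_iff, himp_eq]
  have h1 : e A ≤ e (⋃ n : ℕ, if n = 0 then E else Dᶜ) := by
    refine mono h hA (MeasurableSet.iUnion fun n => ?_) fun x hx => ?_
    · by_cases hn : n = 0
      · simpa [hn] using hE
      · simpa [hn] using hD.compl
    · rw [Set.mem_iUnion]
      by_cases hxD : x ∈ D
      · exact ⟨0, by simpa using hADE ⟨hx, hxD⟩⟩
      · exact ⟨1, by simpa using hxD⟩
  refine h1.trans ?_
  rw [h.iUnion]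
  · refine iSup_le fun n => ?_
    by_cases hn : n = 0
    · simp [hn]
    · simp [hn, h.compl D hD]
  · intro n
    by_cases hn : n = 0
    · simpa [hn] using hE
    · simpa [hn] using hD.compl

theorem sr_symmDiff {s r : Om → Set ℕ} (hs : SR s) (hr : SR r) :
    SR fun ω => symmDiff (s ω) (r ω) := by
  intro n
  have h1 : {ω | n ∈ symmDiff (s ω) (r ω)} =
      symmDiff {ω | n ∈ s ω} {ω | n ∈ r ω} := by
    ext ω
    simp only [Set.mem_symmDiff, Set.mem_ofPred_eq]
  rw [h1]
  exact (hs n).symmDiff (hr n)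

open Classical in
theorem meas_init {x : Om → Set ℕ} (hx : SR x) (σ : List Bool) :
    MeasurableSet {ω | IsInit σ (x ω)} := by
  induction σ with
  | nil =>
    have h1 : {ω | IsInit [] (x ω)} = Set.univ := by
      ext ω
      simp [IsInit, init]
    rw [h1]
    exact MeasurableSet.univ
  | cons b σ ih =>
    have h1 : {ω | IsInit (b :: σ) (x ω)} =
        {ω | decide (σ.length ∈ x ω) = b} ∩ {ω | IsInit σ (x ω)} := by
      ext ω
      simp [IsInit, init]
    rw [h1]
    refine MeasurableSet.inter ?_ ih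
    cases b with
    | true =>
      have h2 : {ω | decide (σ.length ∈ x ω) = true} = {ω | σ.length ∈ x ω} := by
        ext ω
        simp
      rw [h2]
      exact hx _
    | false =>
      have h2 : {ω | decide (σ.length ∈ x ω) = false} = {ω | σ.length ∈ x ω}ᶜ := by
        ext ω
        simp
      rw [h2]
      exact (hx _).compl

theorem meas_evCov {c : Om → ℕ → List Bool} {s r : Om → Set ℕ} (hc : CM c) (hs : SR s)
    (hr : SR r) : MeasurableSet (evCov c s r) := by
  have h1 : evCov c s r = ⋃ j : ℕ, ⋃ σ : List Bool,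
      {ω | c ω j = σ} ∩ {ω | IsInit σ (symmDiff (s ω) (r ω))} := by
    ext ω
    simp only [evCov, Set.mem_ofPred_eq, Set.mem_iUnion, Set.mem_inter_iff]
    constructor
    · rintro ⟨j, hj⟩
      exact ⟨j, _, rfl, hj⟩
    · rintro ⟨j, σ, rfl, hj⟩
      exact ⟨j, hj⟩
  rw [h1]
  exact MeasurableSet.iUnion fun j => MeasurableSet.iUnion fun σ =>
    (hc j σ).inter (meas_init (sr_symmDiff hs hr) σ)

theorem ev_congr (h : MAlg mu e) {A D : Set Om} (hA : MeasurableSet A) (hD : MeasurableSet D)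
    (h1 : mu (A \ D) = 0) (h2 : mu (D \ A) = 0) : e A = e D :=
  le_antisymm ((h.le_iff A D hA hD).2 h1) ((h.le_iff D A hD hA).2 h2)

theorem sum_le (m : List Bool → ℝ) (L : List (List Bool × ℕ)) : ∀ c : ℕ → List Bool,
    (∀ (j : ℕ) (p : List Bool × ℕ), L[j]? = some p → rat p.2 ≤ m (c j)) →
    (L.map fun p => rat p.2).sum ≤ ∑ j ∈ Finset.range L.length, m (c j) := by
  induction L with
  | nil =>
    intro c _
    simp
  | cons a L ih =>
    intro c hc
    rw [List.map_cons, List.sum_cons, List.length_cons, Finset.sum_range_succ']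
    have h1 := ih (fun j => c (j + 1)) fun j p hp => hc (j + 1) p (by simpa using hp)
    have h2 : rat a.2 ≤ m (c 0) := hc 0 a (by simp)
    linarith

theorem meas_evL {m : Om → List Bool → ℝ} {c : Om → ℕ → List Bool} (hm : MM m) (hc : CM c)
    (L : List (List Bool × ℕ)) : MeasurableSet (evL m c L) := by
  have h1 : evL m c L = ⋂ j : ℕ, ⋂ p : List Bool × ℕ, ⋂ _ : L[j]? = some p,
      ({ω | c ω j = p.1} ∩ {ω | m ω p.1 < rat p.2}ᶜ) := by
    ext ω
    simp only [evL, Set.mem_ofPred_eq, Set.mem_iInter, Set.mem_inter_iff, Set.mem_compl_iff]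
  rw [h1]
  refine MeasurableSet.iInter fun j => MeasurableSet.iInter fun p => MeasurableSet.iInter fun _ =>
    (hc j p.1).inter ?_
  exact (measurableSet_lt (hm.1 p.1) measurable_const).compl

end S1Aux

open S1Aux

theorem stSem : StSem := by
  intro hMA hB1 hB2 hHS C U hG hGR hVR b ς hς hnull
  obtain ⟨m, hm, ⟨g, ⟨γ, hγ, -, rfl⟩, hg⟩, hcov⟩ := hnull
  refine ⟨γ, hγ, ?_⟩
  by_contra hcon
  obtain ⟨r, i, hr, hrC, hfail⟩ := hGR.fail b ς hς γ hγ hcon
  have hMM : MM (mOf γ) := (hB1 hMA γ).1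
  have hrN : realSet (star U r) ∈ model (triv B) C U :=
    ⟨rN r, hrC, hHS _, (hVR.rval r hr hrC).symm⟩
  obtain ⟨c, ⟨gc, ⟨γc, hγc, -, rfl⟩, hgc⟩, hc1, hc2⟩ := hcov (star U r) hrN i
  have hCM : CM (cOf γc) := ((hB2 hMA).1 γc).1
  have hnodes := hVR.nodes γc hγc c hgc
  have hmeas := hVR.meas γ hγ m hm hg
  apply hfail
  refine hG.up _ ?_ _ (le_iSup (fun c : {c : Om → ℕ → List Bool // CM c} =>
    inner ev (th b ς) (mOf γ) r i c.1) ⟨cOf γc, hCM⟩)
  show inner ev (th b ς) (mOf γ) r i (cOf γc) ∈ U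
  refine hG.inf _ ?_ _ ?_
  · -- the sum of the measures
    by_contra hs
    obtain ⟨L, hL1, hL2⟩ := hGR.sum γ hγ γc hγc i hs
    have hLm := meas_evL hMM hCM L
    have h1 : ∀ (j : ℕ) (p : List Bool × ℕ), L[j]? = some p → rat p.2 ≤ m (c j) := by
      intro j p hp
      have h2 : ev {ω | cOf γc ω j = p.1} ∈ U := by
        refine hG.up _ hL2 _ (mono hMA hLm (hCM j p.1) ?_)
        intro ω hω
        exact (hω j p hp).1
      have h3 : (ev {ω | mOf γ ω p.1 < rat p.2})ᶜ ∈ U := by
        have h4 : MeasurableSet {ω | mOf γ ω p.1 < rat p.2} :=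
          measurableSet_lt (hMM.1 p.1) measurable_const
        rw [← hMA.compl _ h4]
        refine hG.up _ hL2 _ (mono hMA hLm h4.compl ?_)
        intro ω hω
        exact (hω j p hp).2
      rw [hnodes] at h2
      rw [h2]
      by_contra h5
      push Not at h5
      exact hG.not_compl ((hmeas p.1 p.2).2 h5) h3
    have h2 := sum_le m L c h1
    have h3 : ∑ j ∈ Finset.range L.length, ENNReal.ofReal (m (c j)) ≤
        ENNReal.ofReal ((1 / 2) ^ i) :=
      (ENNReal.sum_le_tsum _).trans hc2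
    rw [← ENNReal.ofReal_sum_of_nonneg fun j _ => hm.nonneg _] at h3
    have h4 : ∑ j ∈ Finset.range L.length, m (c j) ≤ (1 / 2) ^ i :=
      (ENNReal.ofReal_le_ofReal_iff (by positivity)).1 h3
    linarith
  · -- the covering
    by_contra hs
    have hρ : SR (rOf (rN r)) := hVR.rsr _
    have hrr := hVR.rr r hr
    have hev : ∀ s, SR s → ev (evCov (cOf γc) s (rOf (rN r))) = ev (evCov (cOf γc) s r) := by
      intro s hsr
      refine ev_congr hMA (meas_evCov hCM hsr hρ) (meas_evCov hCM hsr hr) ?_ ?_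
      · refine measure_mono_null ?_ hrr
        rintro ω ⟨h1, h2⟩ h3
        apply h2
        show ∃ j, IsInit (cOf γc ω j) (symmDiff (s ω) (r ω))
        rw [← h3]
        exact h1
      · refine measure_mono_null ?_ hrr
        rintro ω ⟨h1, h2⟩ h3
        apply h2
        show ∃ j, IsInit (cOf γc ω j) (symmDiff (s ω) (rOf (rN r) ω))
        rw [h3]
        exact h1
    have hs' : (⨅ s : {s : Om → Set ℕ // SR s},
        (th b ς s.1 ⇨ ev (evCov (cOf γc) s.1 (rOf (rN r))))) ∉ U := by
      intro h1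
      apply hs
      have h2 : (⨅ s : {s : Om → Set ℕ // SR s},
          (th b ς s.1 ⇨ ev (evCov (cOf γc) s.1 (rOf (rN r))))) =
          ⨅ s : {s : Om → Set ℕ // SR s}, (th b ς s.1 ⇨ ev (evCov (cOf γc) s.1 r)) :=
        iInf_congr fun s => by rw [hev s.1 s.2]
      rwa [h2] at h1
    obtain ⟨s, hsr, hsC, hth, hncov⟩ := hGR.cov b ς hς (rN r) hrC γc hγc hs'
    rw [hev s hsr] at hncov
    have hsN : realSet (star U s) ∈ model (triv B) C U :=
      ⟨rN s, hsC, hHS _, (hVR.rval s hsr hsC).symm⟩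
    have hmem : b = true ↔ realSet (star U s) ∈ val C U ς := by
      rw [← hVR.rval s hsr hsC, ← hG.bmem_iff hsC hς]
      cases b with
      | true =>
        simp only [th, if_true] at hth
        simp [hth]
      | false =>
        simp only [th, Bool.false_eq_true, if_false] at hth
        simp only [Bool.false_eq_true, false_iff]
        intro h1
        exact hG.not_compl h1 hth
    obtain ⟨j, hj⟩ := hc1 (star U s) ⟨hsN, hmem⟩
    have h1 : ev {ω | cOf γc ω j = c j} ∈ U := (hnodes j (c j)).2 rfl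
    have h2 : ev {ω | IsInit (c j) (symmDiff (s ω) (r ω))} ∈ U :=
      (hVR.ini s r hsr hr hsC hrC (c j)).2 hj
    apply hncov
    refine hG.up _ (hG.inf _ h1 _ h2) _ (inf_le hMA (hCM j (c j))
      (meas_init (sr_symmDiff hsr hr) (c j)) (meas_evCov hCM hsr hr) ?_)
    rintro ω ⟨h3, h4⟩
    refine ⟨j, ?_⟩
    change cOf γc ω j = c j at h3
    rw [h3]
    exact h4

end RM

end SymExt
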